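import Pool.Agent.W_d799b0_h42.AlgP2

/-! The search for a witness in the small case is computable in polynomial time. -/

set_option autoImplicit false
set_option linter.unusedSectionVars false

namespace Pool.Agent.PolyTime

open Turing Function
open Pool.Agent.W_d799b0_h82 (Bn Pt Seed Test Hd Inst Query Env)

section

variable {γ : Type} [ToD γ]

theorem PF.instS {E : γ → Env} {ph : γ → List (List Seed)} {i0 b0 j : γ → ℕ} {u : γ → Pt}
    (hE : PF E) (hph : PF ph) (hi : PF i0) (hb : PF b0) (hj : PF j) (hu : PF u) :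
    PF (fun c => W_d799b0_h82.instS (E c) (ph c) (i0 c) (b0 c) (j c) (u c)) := by
  have h1 : PF (fun c => ((W_d799b0_h82.eN (E c), (Bn.mk (i0 c), Bn.mk 1,
      Bn.mk (W_d799b0_h82.eR (E c) - b0 c), Bn.mk 1)) : Test)) :=
    hE.eN.pair ((PN.ofNat hi).pair ((PN.const 1).pair ((PN.ofNat (hE.eR.sub hb)).pair
      (PN.const 1))))
  have h2 : PF (fun c => ((j c, ((u c).1, (u c).2.1, (u c).2.2,
      Bn.mk ((W_d799b0_h82.eR (E c) + 1) / 2))) : Test)) :=
    hj.pair (hu.fst.pair (hu.snd.fst.pair (hu.snd.snd.pair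
      (PN.half (PN.add (PN.ofNat hE.eR) (PN.const 1))))))
  exact hE.hdE.pair ((h1.cons (h2.cons (PF.const []))).pair hph)

theorem PF.chi {r : γ → ℕ} {u : γ → Pt} {v : γ → List Bool} (hr : PF r) (hu : PF u)
    (hv : PF v) : PF (fun c => W_d799b0_h82.chi (r c) (u c) (v c)) :=
  PF.testOK (PN.ofNat hr) (hv.length.pair (hu.fst.pair (hu.snd.fst.pair (hu.snd.snd.pair
      (PN.half (PN.add (PN.ofNat hr) (PN.const 1))))))) hv

theorem PF.corr {r : γ → ℕ} {Tab : γ → List (Pt × List Query)} {v : γ → List Bool} (hr : PF r)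
    (hT : PF Tab) (hv : PF v) : PF (fun c => W_d799b0_h82.corr (r c) (Tab c) (v c)) := by
  refine PF.flatMap (g := fun c (p : Pt × List Query) =>
    if W_d799b0_h82.chi (r c) p.1 (v c) then p.2 else p.2.map W_d799b0_h82.flipQ) ?_ hT
  refine PF.ite (PF.chi (hr.comp PF.id'.fst) PF.id'.snd.fst (hv.comp PF.id'.fst))
    PF.id'.snd.snd ?_
  exact PF.map (g := fun _ q => W_d799b0_h82.flipQ q) (PF.pair PF.id'.snd.fst.not PF.id'.snd.snd)
    PF.id'.snd.snd

theorem PF.keep {r K : γ → ℕ} {Tab : γ → List (Pt × List Query)} {v : γ → List Bool}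
    (hr : PF r) (hK : PF K) (hT : PF Tab) (hv : PF v) :
    PF (fun c => W_d799b0_h82.keep (r c) (K c) (Tab c) (v c)) := by
  have hc := PF.corr hr hT hv
  refine PF.any (g := fun c (q : Query) =>
    decide (2 * K c * (W_d799b0_h82.corr (r c) (Tab c) (v c)).count (false, q.2) + r c ^ 3 ≤
      2 * K c * (W_d799b0_h82.corr (r c) (Tab c) (v c)).count (true, q.2))) ?_ hc
  have hK' : PF (fun x : γ × Query => 2 * K x.1) := (PF.const 2).mul (hK.comp PF.id'.fst)
  have h1 : ∀ b : Bool, PF (fun x : γ × Query =>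
      (W_d799b0_h82.corr (r x.1) (Tab x.1) (v x.1)).count (b, x.2.2)) := fun b =>
    PF.countL ((PF.const b).pair PF.id'.snd.snd) (hc.comp PF.id'.fst)
  exact PF.le ((hK'.mul (h1 false)).add ((hr.comp PF.id'.fst).pow 3)) (hK'.mul (h1 true))

theorem PF.extL {L : γ → List (List Bool)} (hL : PF L) :
    PF (fun c => W_d799b0_h82.extL (L c)) :=
  PF.flatMap (g := fun _ (v : List Bool) => [v ++ [false], v ++ [true]])
    ((PF.id'.snd.append (PF.const [false])).cons
      ((PF.id'.snd.append (PF.const [true])).cons (PF.const []))) hL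

theorem PF.tabS {g : Inst → List Query} (hg : PF g) {E : γ → Env} {ph : γ → List (List Seed)}
    {i0 b0 j : γ → ℕ} (hE : PF E) (hph : PF ph) (hi : PF i0) (hb : PF b0) (hj : PF j) :
    PF (fun c => W_d799b0_h82.tabS g (E c) (ph c) (i0 c) (b0 c) (j c)) :=
  PF.map (g := fun c u => (u, g (W_d799b0_h82.instS (E c) (ph c) (i0 c) (b0 c) (j c) u)))
    (PF.id'.snd.pair (hg.comp (PF.instS (hE.comp PF.id'.fst) (hph.comp PF.id'.fst)
      (hi.comp PF.id'.fst) (hb.comp PF.id'.fst) (hj.comp PF.id'.fst) PF.id'.snd))) hE.eR.pts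

theorem PF.stepS {g : Inst → List Query} (hg : PF g) {E : γ → Env} {ph : γ → List (List Seed)}
    {i0 b0 j : γ → ℕ} {L : γ → List (List Bool)} (hE : PF E) (hph : PF ph) (hi : PF i0)
    (hb : PF b0) (hL : PF L) (hj : PF j) :
    PF (fun c => W_d799b0_h82.stepS g (E c) (ph c) (i0 c) (b0 c) (L c) (j c)) := by
  refine PF.take ((PF.const 8).mul (hE.eK.pow 4)) ?_
  have hT := PF.tabS hg hE hph hi hb hj.succ
  exact PF.filter (g := fun c v => W_d799b0_h82.keep (W_d799b0_h82.eR (E c))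
    (W_d799b0_h82.eK (E c)) (W_d799b0_h82.tabS g (E c) (ph c) (i0 c) (b0 c) (j c + 1)) v)
    (PF.keep (hE.comp PF.id'.fst).eR (hE.comp PF.id'.fst).eK (hT.comp PF.id'.fst) PF.id'.snd)
    hL.extL

theorem stepS_fold (g : Inst → List Query) (E : Env) (ph : List (List Seed)) (i0 b0 : ℕ)
    (l : List ℕ) :
    (l.foldl (W_d799b0_h82.stepS g E ph i0 b0) [[]]).length ≤ 8 * W_d799b0_h82.eK E ^ 4 + 1 ∧
      ∀ v ∈ l.foldl (W_d799b0_h82.stepS g E ph i0 b0) [[]], v.length ≤ l.length := by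
  induction l using List.reverseRecOn with
  | nil => simp
  | append_singleton l j ih =>
    rw [List.foldl_append, List.foldl_cons, List.foldl_nil, List.length_append,
      List.length_singleton]
    generalize l.foldl (W_d799b0_h82.stepS g E ph i0 b0) [[]] = L at ih ⊢
    constructor
    · rw [W_d799b0_h82.stepS]
      refine (List.length_take_le _ _).trans (Nat.le_succ _)
    · intro v hv
      rw [W_d799b0_h82.stepS] at hv
      have h1 := List.mem_of_mem_take hv
      have h2 := List.mem_of_mem_filter h1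
      rw [W_d799b0_h82.extL, List.mem_flatMap] at h2
      obtain ⟨w, hw, hv2⟩ := h2
      have h3 := ih.2 w hw
      simp only [List.mem_cons, List.not_mem_nil, or_false] at hv2
      rcases hv2 with h | h <;> rw [h] <;> simp <;> omega

theorem PF.searchS {g : Inst → List Query} (hg : PF g) {E : γ → Env} {ph : γ → List (List Seed)}
    {i0 b0 : γ → ℕ} (hE : PF E) (hph : PF ph) (hi : PF i0) (hb : PF b0) :
    PF (fun c => W_d799b0_h82.searchS g (E c) (ph c) (i0 c) (b0 c)) := by
  obtain ⟨P, hP⟩ := ((PF.const 8).mul (hE.eK.pow 4)).bound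
  obtain ⟨Q, hQ⟩ := hE.eN.bound
  refine PF.foldl' (f := fun c L j => W_d799b0_h82.stepS g (E c) (ph c) (i0 c) (b0 c) L j)
    (PF.stepS hg (hE.comp PF.id'.fst.fst) (hph.comp PF.id'.fst.fst) (hi.comp PF.id'.fst.fst)
      (hb.comp PF.id'.fst.fst) PF.id'.fst.snd PF.id'.snd) (PF.const [[]]) hE.eN.range
    ((P + 1) * (Polynomial.C 4 * Q + 2) + 1) ?_
  intro c l' hl'
  have h1 := stepS_fold g (E c) (ph c) (i0 c) (b0 c) l'
  rw [show (fun L j => W_d799b0_h82.stepS g (E c) (ph c) (i0 c) (b0 c) L j) =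
    W_d799b0_h82.stepS g (E c) (ph c) (i0 c) (b0 c) from rfl]
  generalize l'.foldl (W_d799b0_h82.stepS g (E c) (ph c) (i0 c) (b0 c)) [[]] = L at h1 ⊢
  have h2 := hP c
  have h3 := hQ c
  have h4 := hl'.length_le
  rw [List.length_range] at h4
  rw [sz_nat] at h2 h3
  have h5 := sz_le_length L (4 * Q.eval (sz c) + 1) (fun v hv => by
    have h6 := sz_bits_le v
    have h7 := h1.2 v hv
    omega)
  refine h5.trans ?_
  have h8 : ((P + 1) * (Polynomial.C 4 * Q + 2) + 1 : Polynomial ℕ).eval (sz c) =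
      (P.eval (sz c) + 1) * (4 * Q.eval (sz c) + 1 + 1) + 1 := by
    simp
  rw [h8]
  have h9 : L.length ≤ P.eval (sz c) + 1 := by
    have := h1.1
    omega
  exact Nat.succ_le_succ (Nat.mul_le_mul_right _ h9)

theorem PF.small {V : List Bool → List Bool → Bool}
    (hV : PF (fun x : List Bool × List Bool => V x.1 x.2)) {g : Inst → List Query} (hg : PF g)
    {E : γ → Env} {ph : γ → List (List Seed)} (hE : PF E) (hph : PF ph) :
    PF (fun c => W_d799b0_h82.small V g (E c) (ph c)) := by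
  refine PF.any (g := fun c i0 => (List.range (W_d799b0_h82.eR (E c))).any fun b0 =>
    (W_d799b0_h82.searchS g (E c) (ph c) i0 b0).any fun v => V (W_d799b0_h82.eX (E c)) v) ?_
    hE.eR.range
  refine PF.any (γ := γ × ℕ) (g := fun x b0 =>
    (W_d799b0_h82.searchS g (E x.1) (ph x.1) x.2 b0).any
      fun v => V (W_d799b0_h82.eX (E x.1)) v) ?_ (hE.comp PF.id'.fst).eR.range
  refine PF.any (γ := (γ × ℕ) × ℕ) (g := fun x v => V (W_d799b0_h82.eX (E x.1.1)) v) ?_
    (PF.searchS hg (hE.comp PF.id'.fst.fst) (hph.comp PF.id'.fst.fst) PF.id'.fst.snd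
      PF.id'.snd)
  exact PF.comp (g := fun x : List Bool × List Bool => V x.1 x.2) hV
    ((hE.comp PF.id'.fst.fst.fst).eX.pair PF.id'.snd)

end

end Pool.Agent.PolyTime
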