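import Pool.Agent.W_d799b0_h42.BinA

/-! The functions used by the verifier of the universal language are computable in polynomial time
(with `r` and the numbers of points and tests in binary, and `e` in unary). -/

set_option autoImplicit false
set_option linter.unusedSectionVars false

namespace Pool.Agent.PolyTime

open Turing Function
open Pool.Agent.W_d799b0_h82 (Bn val ev chunk zB bB pI pC pD symOK link testOK Seed Test Pt)

section

variable {γ α : Type} [ToD γ] [ToD α]

theorem ev_fold (r i : ℕ) (g : α → ℕ) (l : List α) :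
    ev r (l.map g) i = l.reverse.foldl (fun s a => (g a + i * s) % r) 0 := by
  rw [ev, List.foldl_reverse, List.foldr_map]

theorem ev_fold_size (r i A : ℕ) (g : α → ℕ) (l : List α) (hA : ∀ a ∈ l, Nat.size (g a) ≤ A) :
    Nat.size (l.foldl (fun s a => (g a + i * s) % r) 0) ≤ l.length * (Nat.size i + 1) + A := by
  induction l using List.reverseRecOn with
  | nil => simp
  | append_singleton l a ih =>
    rw [List.foldl_append, List.foldl_cons, List.foldl_nil, List.length_append,
      List.length_singleton]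
    have h1 := ih (fun b hb => hA b (by simp [hb]))
    have h2 := hA a (by simp)
    generalize l.foldl (fun s a => (g a + i * s) % r) 0 = s at h1 ⊢
    refine (Nat.size_le_size (Nat.mod_le _ _)).trans ?_
    rw [Nat.size_le] at *
    have h3 : i < 2 ^ Nat.size i := Nat.lt_size_self i
    generalize Nat.size i = k at h1 h3 ⊢
    generalize l.length = n at h1 ⊢
    have h4 : g a < 2 ^ (n * (k + 1) + A + k) :=
      h2.trans_le (Nat.pow_le_pow_right (by norm_num) (by omega))
    have h5 : i * s < 2 ^ (n * (k + 1) + A + k) := by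
      rw [pow_add, mul_comm]
      exact Nat.mul_lt_mul'' h1 h3
    have h6 : 2 ^ ((n + 1) * (k + 1) + A) = 2 * 2 ^ (n * (k + 1) + A + k) := by
      rw [← pow_succ']
      congr 1
      ring
    omega

theorem PN.evMap {r i : γ → ℕ} {g : γ → α → ℕ} {l : γ → List α} (hr : PN r)
    (hg : PN (fun x : γ × α => g x.1 x.2)) (hl : PF l) (hi : PN i) :
    PN (fun c => ev (r c) ((l c).map (g c)) (i c)) := by
  obtain ⟨Q, hQ⟩ := hg.bound
  obtain ⟨P, hP⟩ := hl.bound
  obtain ⟨I, hI⟩ := hi.bound
  have h : PN (fun c => (l c).reverse.foldl (fun s a => (g c a + i c * s) % r c) 0) := by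
    refine PN.foldl (f := fun c s a => (g c a + i c * s) % r c) ?_ (PN.const 0) hl.reverse
      (P * (I + 1) + Q.comp (Polynomial.X + P + 1)) ?_
    · exact PN.mod (PN.add (PN.comp hg (PF.id'.fst.fst.pair PF.id'.snd))
        (PN.mul (PN.comp hi PF.id'.fst.fst) (PN.ofBn PF.id'.fst.snd)))
        (PN.comp hr PF.id'.fst.fst)
    · intro c l' hl'
      have h1 : ∀ a ∈ l', Nat.size (g c a) ≤
          Q.eval ((Polynomial.X + P + 1).eval (sz c)) := by
        intro a ha
        refine (hQ (c, a)).trans (eval_mono Q ?_)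
        have h2 : a ∈ l c := by
          have := hl'.subset ha
          simpa using this
        have h3 := sz_mem h2
        have h4 := hP c
        rw [sz_pair]
        simp only [Polynomial.eval_add, Polynomial.eval_X, Polynomial.eval_one]
        omega
      refine (ev_fold_size (r c) (i c) _ (g c) l' h1).trans ?_
      have h6 : (P * (I + 1) + Q.comp (Polynomial.X + P + 1)).eval (sz c) =
          P.eval (sz c) * (I.eval (sz c) + 1) +
            Q.eval ((Polynomial.X + P + 1).eval (sz c)) := by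
        simp [Polynomial.eval_comp]
      rw [h6]
      refine Nat.add_le_add (Nat.mul_le_mul ?_ (Nat.succ_le_succ (hI c))) le_rfl
      have h5 := hl'.length_le
      rw [List.length_reverse] at h5
      exact h5.trans ((length_le_sz _).trans (hP c))
  exact h.congr (fun c => ev_fold _ _ _ _)

theorem PF.chunk {w j : γ → ℕ} {B : γ → List Bool} (hw : PF w) (hj : PF j) (hB : PF B) :
    PF (fun c => chunk (w c) (j c) (B c)) :=
  PF.take hw (PF.drop (hj.mul hw) hB)

theorem PN.zB {e r i : γ → ℕ} {B : γ → List Bool} (he : PF e) (hr : PN r) (hB : PF B)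
    (hi : PN i) : PN (fun c => zB (e c) (r c) (B c) (i c)) :=
  PN.evMap (g := fun c j => W_d799b0_h82.val (W_d799b0_h82.chunk (4 * e c) j (B c))) hr
    (PN.val (PF.chunk (((PF.const 4).mul he).comp PF.id'.fst) PF.id'.snd (hB.comp PF.id'.fst)))
    hB.length.range hi

theorem PN.bB {r i : γ → ℕ} {B : γ → List Bool} (hr : PN r) (hB : PF B)
    (hi : PN i) : PN (fun c => bB (r c) (B c) (i c)) :=
  PN.evMap (g := fun _ b => Bool.toNat b) hr (PN.ofBool PF.id'.snd) hB hi

theorem PN.pI {r l : γ → ℕ} {s : γ → Seed} (hr : PN r) (hs : PF s) (hl : PN l) :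
    PN (fun c => pI (r c) (s c) (l c)) :=
  PN.mod (PN.add (PN.ofBn hs.fst.fst) (PN.mul (PN.ofBn hs.snd.fst) hl)) hr

theorem PN.pC {r l : γ → ℕ} {s : γ → Seed} (hr : PN r) (hs : PF s) (hl : PN l) :
    PN (fun c => pC (r c) (s c) (l c)) :=
  PN.mod (PN.add (PN.ofBn hs.fst.snd.fst) (PN.mul (PN.ofBn hs.snd.snd.fst) hl)) hr

theorem PN.pD {r l : γ → ℕ} {s : γ → Seed} (hr : PN r) (hs : PF s) (hl : PN l) :
    PN (fun c => pD (r c) (s c) (l c)) :=
  PN.mod (PN.add (PN.ofBn hs.fst.snd.snd) (PN.mul (PN.ofBn hs.snd.snd.snd) hl)) hr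

theorem PF.symOK {e r : γ → ℕ} {s : γ → Seed} {B y : γ → List Bool} (he : PF e) (hr : PN r)
    (hs : PF s) (hB : PF B) (hy : PF y) :
    PF (fun c => symOK (e c) (r c) (s c) (B c) (y c)) := by
  have hl : PN (fun c => W_d799b0_h82.val ((y c).take (e c))) := PN.val (PF.take he hy)
  exact PN.eq (PN.mod (PN.add (PN.mul (PN.pC hr hs hl) (PN.zB he hr hB (PN.pI hr hs hl)))
    (PN.pD hr hs hl)) hr) (PN.val (PF.drop he hy))

theorem PF.link {e r : γ → ℕ} {σ : γ → List Seed} {B B' : γ → List Bool} (he : PF e)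
    (hr : PN r) (hσ : PF σ) (hB : PF B) (hB' : PF B') :
    PF (fun c => link (e c) (r c) (σ c) (B c) (B' c)) := by
  refine PF.and (PF.natEq hB'.length (((PF.const 2).mul he).mul hσ.length)) ?_
  exact PF.all (g := fun c (p : Seed × ℕ) => W_d799b0_h82.symOK (e c) (r c) p.1 (B c)
    (W_d799b0_h82.chunk (2 * e c) p.2 (B' c)))
    (PF.symOK (he.comp PF.id'.fst) (PN.comp hr PF.id'.fst) PF.id'.snd.fst (hB.comp PF.id'.fst)
      (PF.chunk (((PF.const 2).mul he).comp PF.id'.fst) PF.id'.snd.snd (hB'.comp PF.id'.fst)))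
    hσ.zipIdx

theorem PF.testOK {r : γ → ℕ} {τ : γ → Test} {B : γ → List Bool} (hr : PN r) (hτ : PF τ)
    (hB : PF B) : PF (fun c => testOK (r c) (τ c) (B c)) :=
  PN.lt (PN.mod (PN.add (PN.mul (PN.ofBn hτ.snd.snd.fst)
    (PN.bB hr (PF.take hτ.fst hB) (PN.ofBn hτ.snd.fst))) (PN.ofBn hτ.snd.snd.snd.fst)) hr)
    (PN.ofBn hτ.snd.snd.snd.snd)

end

end Pool.Agent.PolyTime
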