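import Pool.Agent.W_d799b0_h42.AlgP1

/-! The search for a seed is computable in polynomial time (all parameters in unary). -/

set_option autoImplicit false
set_option linter.unusedSectionVars false

namespace Pool.Agent.PolyTime

open Turing Function
open Pool.Agent.W_d799b0_h82 (Bn Pt Seed Test Hd Inst Query Env zpt)

section

variable {γ : Type} [ToD γ]

theorem PF.beqL {α : Type} [ToD α] [ToDInj α] [BEq α] [LawfulBEq α] {f g : γ → α} (hf : PF f)
    (hg : PF g) : PF (fun c => f c == g c) :=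
  (hf.enc.eqListBool hg.enc).cast (fun c => by
    congr 1
    rw [Bool.eq_iff_iff, beq_iff_eq, decide_eq_true_iff, en_inj])

theorem PF.countL {α : Type} [ToD α] [ToDInj α] [BEq α] [LawfulBEq α] {a : γ → α}
    {l : γ → List α} (ha : PF a) (hl : PF l) : PF (fun c => (l c).count (a c)) := by
  have h : PF (fun c => (l c).countP (fun x => x == a c)) :=
    PF.countP (g := fun c x => x == a c) (PF.id'.snd.beqL (ha.comp PF.id'.fst)) hl
  exact h.cast (fun _ => rfl)

theorem PF.eX {E : γ → Env} (h : PF E) : PF (fun c => W_d799b0_h82.eX (E c)) := h.fst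
theorem PF.eE {E : γ → Env} (h : PF E) : PF (fun c => W_d799b0_h82.eE (E c)) := h.snd.fst.fst
theorem PF.eW {E : γ → Env} (h : PF E) : PF (fun c => W_d799b0_h82.eW (E c)) := h.snd.fst.snd
theorem PF.eN {E : γ → Env} (h : PF E) : PF (fun c => W_d799b0_h82.eN (E c)) :=
  h.snd.snd.fst.fst
theorem PF.eR {E : γ → Env} (h : PF E) : PF (fun c => W_d799b0_h82.eR (E c)) :=
  h.snd.snd.fst.snd
theorem PF.eK {E : γ → Env} (h : PF E) : PF (fun c => W_d799b0_h82.eK (E c)) :=
  h.snd.snd.snd.fst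
theorem PF.eM {E : γ → Env} (h : PF E) : PF (fun c => W_d799b0_h82.eM (E c)) :=
  h.snd.snd.snd.snd

theorem PF.hdE {E : γ → Env} (h : PF E) : PF (fun c => W_d799b0_h82.hdE (E c)) :=
  h.eX.pair (h.eE.pair (h.eN.pair (PN.ofNat h.eR)))

theorem PF.pts {r : γ → ℕ} (hr : PF r) : PF (fun c => W_d799b0_h82.pts (r c)) := by
  refine PF.flatMap (g := fun c i => (List.range (r c)).flatMap fun a =>
    (List.range (r c)).map fun d => ((⟨i⟩, ⟨a⟩, ⟨d⟩) : Pt)) ?_ hr.range
  refine PF.flatMap (γ := γ × ℕ) (g := fun x a =>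
    (List.range (r x.1)).map fun d => ((⟨x.2⟩, ⟨a⟩, ⟨d⟩) : Pt)) ?_ (hr.comp PF.id'.fst).range
  refine PF.map (γ := (γ × ℕ) × ℕ) (g := fun x d => ((⟨x.1.2⟩, ⟨x.2⟩, ⟨d⟩) : Pt)) ?_
    (hr.comp PF.id'.fst.fst).range
  exact PF.pair (PN.ofNat PF.id'.fst.fst.snd) (PF.pair (PN.ofNat PF.id'.fst.snd)
    (PN.ofNat PF.id'.snd))

theorem PF.seeds {r : γ → ℕ} (hr : PF r) : PF (fun c => W_d799b0_h82.seeds (r c)) := by
  refine PF.flatMap (g := fun c a => (W_d799b0_h82.pts (r c)).map fun b => (a, b)) ?_ hr.pts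
  exact PF.map (γ := γ × Pt) (g := fun x b => (x.2, b)) (PF.id'.fst.snd.pair PF.id'.snd)
    (hr.comp PF.id'.fst).pts

theorem PF.pt {r l : γ → ℕ} {s : γ → Seed} (hr : PF r) (hs : PF s) (hl : PF l) :
    PF (fun c => W_d799b0_h82.pt (r c) (s c) (l c)) :=
  PF.pair (PN.pI (PN.ofNat hr) hs (PN.ofNat hl)) (PF.pair (PN.pC (PN.ofNat hr) hs (PN.ofNat hl))
    (PN.pD (PN.ofNat hr) hs (PN.ofNat hl)))

theorem PF.instL {E : γ → Env} {ph : γ → List (List Seed)} {σ : γ → List Seed} {u : γ → Pt}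
    (hE : PF E) (hph : PF ph) (hσ : PF σ) (hu : PF u) :
    PF (fun c => W_d799b0_h82.instL (E c) (ph c) (σ c) (u c)) :=
  hE.hdE.pair ((PF.const []).pair
    ((hσ.append ((hu.pair (PF.const zpt)).cons (PF.const []))).cons hph))

theorem PF.allQ {g : Inst → List Query} (hg : PF g) {E : γ → Env} {ph : γ → List (List Seed)}
    {σ : γ → List Seed} (hE : PF E) (hph : PF ph) (hσ : PF σ) :
    PF (fun c => W_d799b0_h82.allQ g (E c) (ph c) (σ c)) :=
  PF.flatMap (g := fun c u => g (W_d799b0_h82.instL (E c) (ph c) (σ c) u))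
    (hg.comp (PF.instL (hE.comp PF.id'.fst) (hph.comp PF.id'.fst) (hσ.comp PF.id'.fst)
      PF.id'.snd)) hE.eR.pts

theorem PF.smpQ {g : Inst → List Query} (hg : PF g) {E : γ → Env} {ph : γ → List (List Seed)}
    {σ : γ → List Seed} {s : γ → Seed} (hE : PF E) (hph : PF ph) (hσ : PF σ) (hs : PF s) :
    PF (fun c => W_d799b0_h82.smpQ g (E c) (ph c) (σ c) (s c)) :=
  PF.flatMap (g := fun c l => g (W_d799b0_h82.instL (E c) (ph c) (σ c)
      (W_d799b0_h82.pt (W_d799b0_h82.eR (E c)) (s c) l)))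
    (hg.comp (PF.instL (hE.comp PF.id'.fst) (hph.comp PF.id'.fst) (hσ.comp PF.id'.fst)
      (PF.pt (hE.comp PF.id'.fst).eR (hs.comp PF.id'.fst) PF.id'.snd))) hE.eW.range

theorem PF.accOK {K w R : γ → ℕ} {FU FS : γ → List Query} (hK : PF K) (hw : PF w) (hR : PF R)
    (hU : PF FU) (hS : PF FS) :
    PF (fun c => W_d799b0_h82.accOK (K c) (w c) (R c) (FU c) (FS c)) := by
  refine PF.all (g := fun c (q : Query) =>
    decide (4 * K c * (R c * (FS c).count (true, q.2) + w c * (FU c).count (false, q.2)) ≤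
      4 * K c * (R c * (FS c).count (false, q.2) + w c * (FU c).count (true, q.2)) + w c * R c) &&
    decide (4 * K c * (R c * (FS c).count (false, q.2) + w c * (FU c).count (true, q.2)) ≤
      4 * K c * (R c * (FS c).count (true, q.2) + w c * (FU c).count (false, q.2)) + w c * R c))
    ?_ hU
  have hK' : PF (fun x : γ × Query => 4 * K x.1) := (PF.const 4).mul (hK.comp PF.id'.fst)
  have hR' : PF (fun x : γ × Query => R x.1) := hR.comp PF.id'.fst
  have hw' : PF (fun x : γ × Query => w x.1) := hw.comp PF.id'.fst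
  have hc : ∀ (b : Bool) {F : γ → List Query}, PF F →
      PF (fun x : γ × Query => (F x.1).count (b, x.2.2)) := fun b F hF =>
    PF.countL ((PF.const b).pair PF.id'.snd.snd) (hF.comp PF.id'.fst)
  have h1 : PF (fun x : γ × Query => 4 * K x.1 * (R x.1 * (FS x.1).count (true, x.2.2) +
      w x.1 * (FU x.1).count (false, x.2.2))) :=
    hK'.mul ((hR'.mul (hc true hS)).add (hw'.mul (hc false hU)))
  have h2 : PF (fun x : γ × Query => 4 * K x.1 * (R x.1 * (FS x.1).count (false, x.2.2) +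
      w x.1 * (FU x.1).count (true, x.2.2))) :=
    hK'.mul ((hR'.mul (hc false hS)).add (hw'.mul (hc true hU)))
  exact PF.and (PF.le h1 (h2.add (hw'.mul hR'))) (PF.le h2 (h1.add (hw'.mul hR')))

theorem PF.distOK {r w : γ → ℕ} {σ : γ → List Seed} {s : γ → Seed} (hr : PF r) (hw : PF w)
    (hσ : PF σ) (hs : PF s) : PF (fun c => W_d799b0_h82.distOK (r c) (w c) (σ c) (s c)) := by
  refine PF.all (g := fun c l => !decide (W_d799b0_h82.pC (r c) (s c) l = 0) &&
    (σ c).all fun s' => (List.range (w c)).all fun l' =>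
      !decide (W_d799b0_h82.pI (r c) s' l' = W_d799b0_h82.pI (r c) (s c) l)) ?_ hw.range
  refine PF.and (PF.not (PN.eq (PN.pC (PN.ofNat (hr.comp PF.id'.fst)) (hs.comp PF.id'.fst)
    (PN.ofNat PF.id'.snd)) (PN.const 0))) ?_
  refine PF.all (γ := γ × ℕ) (g := fun x s' => (List.range (w x.1)).all fun l' =>
      !decide (W_d799b0_h82.pI (r x.1) s' l' = W_d799b0_h82.pI (r x.1) (s x.1) x.2)) ?_
      (hσ.comp PF.id'.fst)
  refine PF.all (γ := (γ × ℕ) × Seed) (g := fun x l' =>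
      !decide (W_d799b0_h82.pI (r x.1.1) x.2 l' = W_d799b0_h82.pI (r x.1.1) (s x.1.1) x.1.2)) ?_
      (hw.comp PF.id'.fst.fst).range
  have hr' : PN (fun x : ((γ × ℕ) × Seed) × ℕ => r x.1.1.1) :=
    PN.ofNat (hr.comp PF.id'.fst.fst.fst)
  exact PF.not (PN.eq (PN.pI hr' PF.id'.fst.snd (PN.ofNat PF.id'.snd))
    (PN.pI hr' (hs.comp PF.id'.fst.fst.fst) (PN.ofNat PF.id'.fst.fst.snd)))

theorem PF.goodSeed {g : Inst → List Query} (hg : PF g) {E : γ → Env}
    {ph : γ → List (List Seed)} {σ : γ → List Seed} {s : γ → Seed} (hE : PF E) (hph : PF ph)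
    (hσ : PF σ) (hs : PF s) : PF (fun c => W_d799b0_h82.goodSeed g (E c) (ph c) (σ c) (s c)) :=
  PF.and (PF.distOK hE.eR hE.eW hσ hs) (PF.accOK hE.eK hE.eW (hE.eR.pow 3)
    (PF.allQ hg hE hph hσ) (PF.smpQ hg hE hph hσ hs))

theorem PF.pickSeed {g : Inst → List Query} (hg : PF g) {E : γ → Env}
    {ph : γ → List (List Seed)} {σ : γ → List Seed} (hE : PF E) (hph : PF ph)
    (hσ : PF σ) : PF (fun c => W_d799b0_h82.pickSeed g (E c) (ph c) (σ c)) :=
  PF.headD (PF.filter (g := fun c s => W_d799b0_h82.goodSeed g (E c) (ph c) (σ c) s)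
    (PF.goodSeed hg (hE.comp PF.id'.fst) (hph.comp PF.id'.fst) (hσ.comp PF.id'.fst) PF.id'.snd)
    hE.eR.seeds) (PF.const (zpt, zpt))

end

end Pool.Agent.PolyTime
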