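import Pool.Agent.W_d799b0_h42.AlgP3

/-! The algorithm runs in polynomial time (all parameters in unary). -/

set_option autoImplicit false
set_option linter.unusedSectionVars false

namespace Pool.Agent.PolyTime

open Turing Function
open Pool.Agent.W_d799b0_h82 (Bn Pt Seed Test Hd Inst Query Env St zpt)

section

variable {γ : Type} [ToD γ]

theorem PF.step {V : List Bool → List Bool → Bool}
    (hV : PF (fun x : List Bool × List Bool => V x.1 x.2)) {g : Inst → List Query} (hg : PF g)
    {E : γ → Env} {s : γ → St} (hE : PF E) (hs : PF s) :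
    PF (fun c => W_d799b0_h82.step V g (E c) (s c)) := by
  have hp : PF (fun c => (s c).2.1) := hs.snd.fst
  have hc : PF (fun c => (s c).2.2.1) := hs.snd.snd.fst
  have hm : PF (fun c => (s c).2.2.2) := hs.snd.snd.snd
  have hq : PF (fun c => (s c).2.2.1 ++ [W_d799b0_h82.pickSeed g (E c) (s c).2.1 (s c).2.2.1]) :=
    hc.append ((PF.pickSeed hg hE hp hc).cons (PF.const []))
  have hsm : PF (fun c => ((s c).1 ||
      W_d799b0_h82.small V g (E c) ((s c).2.2.1 :: (s c).2.1) : Bool)) :=
    hs.fst.or (PF.small hV hg hE (hc.cons hp))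
  have hhalf : PF (fun c => (s c).2.2.2 / 2) :=
    PN.toNat (g := fun c => (s c).2.2.2) (PN.half (PN.ofNat hm)) hm
      (fun c => Nat.div_le_self _ _)
  have h := PF.ite (hm.natEq (PF.const 0)) hs (PF.ite (hq.length.natEq hm)
    (hsm.pair ((hq.cons hp).pair ((PF.const ([] : List Seed)).pair hhalf)))
    (hsm.pair (hp.pair (hq.pair hm))))
  refine h.cast (fun c => ?_)
  rw [W_d799b0_h82.step]
  simp only [decide_eq_true_eq]

theorem step_size (V : List Bool → List Bool → Bool) (g : Inst → List Query) (E : Env) (s : St)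
    (A : ℕ) (hA : sz (W_d799b0_h82.seeds (W_d799b0_h82.eR E)) + sz ((zpt, zpt) : Seed) ≤ A) :
    sz (W_d799b0_h82.step V g E s).2 ≤ sz s.2 + A + 3 := by
  have h1 : sz (W_d799b0_h82.pickSeed g E s.2.1 s.2.2.1) ≤ A := by
    rw [W_d799b0_h82.pickSeed]
    cases h : (W_d799b0_h82.seeds (W_d799b0_h82.eR E)).filter
        (W_d799b0_h82.goodSeed g E s.2.1 s.2.2.1) with
    | nil =>
      rw [List.headD_nil]
      omega
    | cons a l =>
      rw [List.headD_cons]
      have h2 : a ∈ W_d799b0_h82.seeds (W_d799b0_h82.eR E) :=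
        List.mem_of_mem_filter (p := W_d799b0_h82.goodSeed g E s.2.1 s.2.2.1) (by
          rw [h]; exact List.mem_cons_self)
      have h3 := sz_mem h2
      omega
  obtain ⟨f, ph, cur, m⟩ := s
  have h2 : sz (cur ++ [W_d799b0_h82.pickSeed g E ph cur]) + 1 =
      sz cur + (sz (W_d799b0_h82.pickSeed g E ph cur) + 1 + 1) := by
    rw [sz_append, sz_cons, sz_nil]
  simp only at h1
  rw [W_d799b0_h82.step]
  simp only
  split_ifs with h3 h4
  · simp only [sz_pair]
    omega
  · simp only [sz_pair, sz_cons, sz_nil, sz_nat]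
    omega
  · simp only [sz_pair]
    omega

theorem loop_size (V : List Bool → List Bool → Bool) (g : Inst → List Query) (E : Env)
    (A : ℕ) (hA : sz (W_d799b0_h82.seeds (W_d799b0_h82.eR E)) + sz ((zpt, zpt) : Seed) ≤ A)
    (s : St) (i : ℕ) :
    sz ((W_d799b0_h82.step V g E)^[i] s) ≤ sz s.2 + 4 + i * (A + 3) := by
  have key : sz ((W_d799b0_h82.step V g E)^[i] s).2 ≤ sz s.2 + i * (A + 3) := by
    induction i with
    | zero => simp
    | succ i ih =>
      rw [iterate_succ_apply']
      have h := step_size V g E ((W_d799b0_h82.step V g E)^[i] s) A hA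
      have h2 : (i + 1) * (A + 3) = i * (A + 3) + (A + 3) := by ring
      omega
  generalize (W_d799b0_h82.step V g E)^[i] s = t at key ⊢
  obtain ⟨b, t⟩ := t
  rw [sz_pair]
  have := sz_bool b
  simp only at key
  omega

theorem PF.loop {V : List Bool → List Bool → Bool}
    (hV : PF (fun x : List Bool × List Bool => V x.1 x.2)) {g : Inst → List Query} (hg : PF g)
    {E : γ → Env} (hE : PF E) : PF (fun c => W_d799b0_h82.loop V g (E c)) := by
  obtain ⟨P, hP⟩ := hE.eR.seeds.bound
  obtain ⟨Q, hQ⟩ := hE.eM.bound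
  obtain ⟨Z, hZ⟩ : ∃ Z, sz ((zpt, zpt) : Seed) = Z := ⟨_, rfl⟩
  refine PF.iter (f := fun c s => W_d799b0_h82.step V g (E c) s)
    (PF.step hV hg (hE.comp PF.id'.fst) PF.id'.snd)
    ((PF.const false).pair ((PF.const []).pair ((PF.const []).pair hE.eM)))
    ((PF.const 2).mul hE.eM) (Q + 8 + Polynomial.C 2 * Q * (P + Polynomial.C Z + 3)) ?_
  intro c i hi
  have h1 := loop_size V g (E c) (P.eval (sz c) + Z) (by
    have := hP c
    omega) (false, ([], ([], W_d799b0_h82.eM (E c)))) i
  refine h1.trans ?_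
  have h2 := hQ c
  have h3 : i ≤ 2 * Q.eval (sz c) := by
    rw [sz_nat] at h2
    omega
  have h4 := Nat.mul_le_mul_right (P.eval (sz c) + Z + 3) h3
  have h5 : (Q + 8 + Polynomial.C 2 * Q * (P + Polynomial.C Z + 3) : Polynomial ℕ).eval (sz c) =
      Q.eval (sz c) + 8 + 2 * Q.eval (sz c) * (P.eval (sz c) + Z + 3) := by
    simp
  rw [h5]
  simp only [sz_pair, sz_nil]
  omega

/-- **The algorithm runs in polynomial time.** -/
theorem PF.run {V : List Bool → List Bool → Bool}
    (hV : PF (fun x : List Bool × List Bool => V x.1 x.2)) {g : Inst → List Query} (hg : PF g)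
    {E : γ → Env} (hE : PF E) : PF (fun c => W_d799b0_h82.run V g (E c)) :=
  PF.or (PF.loop hV hg hE).fst (PF.small hV hg hE (PF.loop hV hg hE).snd.fst)

end

end Pool.Agent.PolyTime
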