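import Pool.Agent.PolyX_h42.EqX
import Pool.Agent.W_d799b0_h82.Alg

/-! Polynomial time arithmetic on natural numbers written in binary. -/

set_option autoImplicit false
set_option linter.unusedSectionVars false

namespace Pool.Agent.PolyTime

open Turing Function
open Pool.Agent.W_d799b0_h82 (Bn val)

/-- A number in binary is represented by its list of bits, least significant bit first. -/
instance : ToD Bn := ⟨fun b => toD (Nat.bits b.n)⟩

theorem toD_bn (b : Bn) : toD b = toD (Nat.bits b.n) := rfl

theorem sz_bn_bits (b : Bn) : sz b = sz (Nat.bits b.n) := rfl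

theorem val_append (u v : List Bool) : val (u ++ v) = val u + 2 ^ u.length * val v := by
  induction u with
  | nil => simp [val]
  | cons b u ih =>
    rw [List.cons_append, val, val, ih, List.length_cons, pow_succ]
    ring

theorem val_replicate (k : ℕ) : val (List.replicate k false) = 0 := by
  induction k with
  | zero => rfl
  | succ k ih => rw [List.replicate_succ, val, ih]; rfl

theorem val_lt (u : List Bool) : val u < 2 ^ u.length := by
  induction u with
  | nil => simp [val]
  | cons b u ih =>
    rw [val, List.length_cons, pow_succ]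
    cases b <;> simp <;> omega

/-- one step of the conversion of a list of bits into a normalized list of bits -/
def nrm (acc : List Bool) (b : Bool) : List Bool := if !b && acc.isEmpty then [] else b :: acc

theorem bits_val_cons (b : Bool) (l : List Bool) :
    Nat.bits (val (b :: l)) = nrm (Nat.bits (val l)) b := by
  have h1 : val (b :: l) = Nat.bit b (val l) := by
    rw [val, Nat.bit_val]
    omega
  rw [h1, nrm]
  by_cases h : val l = 0 ∧ b = false
  · rw [h.1, h.2]
    simp
  · rw [Nat.bits_append_bit (val l) b (by
      intro h2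
      by_contra h3
      exact h ⟨h2, by simpa using h3⟩)]
    rw [if_neg]
    intro h4
    rw [Bool.and_eq_true, Bool.not_eq_true', List.isEmpty_iff] at h4
    apply h
    refine ⟨?_, h4.1⟩
    have h5 := congrArg List.length h4.2
    rw [Nat.size_eq_bits_len] at h5
    exact Nat.size_eq_zero.1 h5

theorem bits_val (l : List Bool) :
    Nat.bits (val l) = l.reverse.foldl nrm [] := by
  rw [List.foldl_reverse]
  induction l with
  | nil => simp [val]
  | cons b l ih => rw [bits_val_cons, ih, List.foldr_cons]

theorem val_bits (n : ℕ) : val (Nat.bits n) = n := by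
  induction n using Nat.binaryRec' with
  | zero => simp [val]
  | bit b n h ih =>
    rw [Nat.bits_append_bit n b h, val, ih, Nat.bit_val]
    omega

instance : ToDInj Bn := ⟨fun a b h => by
  have h1 : Nat.bits a.n = Nat.bits b.n := ToDInj.inj h
  cases a; cases b
  rw [Bn.mk.injEq]
  have h2 := congrArg val h1
  rwa [val_bits, val_bits] at h2⟩

theorem sz_bits_le (l : List Bool) : sz l ≤ 4 * l.length + 1 := by
  have h := sz_le_length l 3 (fun a _ => sz_bool a)
  omega

theorem sz_bn (n : ℕ) : sz (Bn.mk n) ≤ 4 * Nat.size n + 1 := by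
  rw [sz_bn_bits, ← Nat.size_eq_bits_len]
  exact sz_bits_le _

theorem size_le_sz (n : ℕ) : Nat.size n ≤ sz (Bn.mk n) := by
  rw [sz_bn_bits, ← Nat.size_eq_bits_len]
  exact length_le_sz _

theorem sz_bn_mono {m n : ℕ} (h : m ≤ n) : sz (Bn.mk m) ≤ 4 * sz (Bn.mk n) + 1 :=
  (sz_bn m).trans (by
    have h1 := Nat.size_le_size h
    have h2 := size_le_sz n
    omega)

theorem size_val_le (l : List Bool) : Nat.size (val l) ≤ l.length :=
  Nat.size_le.2 (val_lt l)

section

variable {γ : Type} [ToD γ]

theorem PF.bnBits {f : γ → Bn} (hf : PF f) : PF (fun c => Nat.bits (f c).n) :=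
  (PF.ident (f := fun b : Bn => Nat.bits b.n) (fun _ => rfl)).comp hf

theorem PF.bnOfBits {f : γ → List Bool} (hf : PF f) : PF (fun c => Bn.mk (val (f c))) := by
  obtain ⟨P, hP⟩ := hf.bound
  have h : PF (fun c => (f c).reverse.foldl nrm []) := by
    refine PF.foldl' (f := fun _ acc b => nrm acc b) ?_ (PF.const []) hf.reverse
      (Polynomial.C 4 * P + 1) ?_
    · exact PF.ite (PF.id'.snd.not.and PF.id'.fst.snd.isEmpty) (PF.const [])
        (PF.id'.snd.cons PF.id'.fst.snd)
    · intro c l' hl'
      have h1 : l'.foldl nrm [] = Nat.bits (val l'.reverse) := by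
        rw [bits_val, List.reverse_reverse]
      rw [show (fun (acc : List Bool) b => nrm acc b) = nrm from rfl, h1]
      have h2 := sz_bn (val l'.reverse)
      have h3 := size_val_le l'.reverse
      have h4 : l'.reverse.length ≤ (f c).length := by
        have := hl'.length_le
        simpa using this
      have h5 := length_le_sz (f c)
      have h6 := hP c
      change sz (Nat.bits (val l'.reverse)) ≤ _ at h2
      simp only [Polynomial.eval_add, Polynomial.eval_mul, Polynomial.eval_C,
        Polynomial.eval_one]
      omega
  exact h.cast (fun c => by rw [toD_bn, ← bits_val])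

/-- A function with values in binary numbers can be computed via lists of bits. -/
theorem PF.bnOf {f : γ → List Bool} {g : γ → ℕ} (hf : PF f) (h : ∀ c, val (f c) = g c) :
    PF (fun c => Bn.mk (g c)) :=
  hf.bnOfBits.cast (fun c => by rw [h c])

theorem PF.bnSize {f : γ → Bn} (hf : PF f) : PF (fun c => Nat.size (f c).n) :=
  hf.bnBits.length.cast (fun c => by rw [Nat.size_eq_bits_len])

theorem PF.bnEq {f g : γ → Bn} (hf : PF f) (hg : PF g) :
    PF (fun c => decide ((f c).n = (g c).n)) :=
  (hf.eq hg).cast (fun c => by
    congr 1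
    apply decide_eq_decide.2
    generalize f c = a
    generalize g c = b
    cases a
    cases b
    rw [Bn.mk.injEq])

end

/-! ### addition and subtraction on lists of bits -/

/-- the pairs of bits of two numbers, padded by zeros -/
def pz (u v : List Bool) : List (Bool × Bool) :=
  (u ++ List.replicate v.length false).zip (v ++ List.replicate u.length false)

theorem pz_fst (u v : List Bool) : val ((pz u v).map Prod.fst) = val u := by
  rw [pz, List.map_fst_zip (by simp; omega), val_append, val_replicate]
  simp

theorem pz_snd (u v : List Bool) : val ((pz u v).map Prod.snd) = val v := by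
  rw [pz, List.map_snd_zip (by simp; omega), val_append, val_replicate]
  simp

theorem length_pz (u v : List Bool) : (pz u v).length = u.length + v.length := by
  rw [pz, List.length_zip]
  simp
  omega

/-- one step of the addition: state `(carry, result reversed)` -/
def addS (s : Bool × List Bool) (p : Bool × Bool) : Bool × List Bool :=
  ((p.1 && p.2) || (s.1 && (p.1 || p.2)), (p.1 ^^ p.2 ^^ s.1) :: s.2)

/-- one step of the subtraction: state `(borrow, result reversed)` -/
def subS (s : Bool × List Bool) (p : Bool × Bool) : Bool × List Bool :=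
  ((!p.1 && (p.2 || s.1)) || (p.2 && s.1), (p.1 ^^ p.2 ^^ s.1) :: s.2)

theorem addS_length (l : List (Bool × Bool)) (s : Bool × List Bool) :
    (l.foldl addS s).2.length = s.2.length + l.length := by
  induction l generalizing s with
  | nil => simp
  | cons p l ih => rw [List.foldl_cons, ih, addS]; simp; omega

theorem subS_length (l : List (Bool × Bool)) (s : Bool × List Bool) :
    (l.foldl subS s).2.length = s.2.length + l.length := by
  induction l generalizing s with
  | nil => simp
  | cons p l ih => rw [List.foldl_cons, ih, subS]; simp; omega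

theorem addS_val (l : List (Bool × Bool)) (s : Bool × List Bool) :
    val (l.foldl addS s).2.reverse + 2 ^ (l.foldl addS s).2.length * (l.foldl addS s).1.toNat =
      val s.2.reverse + 2 ^ s.2.length *
        (s.1.toNat + val (l.map Prod.fst) + val (l.map Prod.snd)) := by
  induction l generalizing s with
  | nil => simp [val]
  | cons p l ih =>
    rw [List.foldl_cons, ih, addS]
    obtain ⟨c, o⟩ := s
    obtain ⟨a, b⟩ := p
    simp only [List.reverse_cons, val_append, List.length_cons, List.map_cons, val,
      List.length_reverse, pow_succ]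
    generalize val (l.map Prod.fst) = A
    generalize val (l.map Prod.snd) = B
    generalize (2 ^ o.length) = N
    generalize val o.reverse = M
    cases a <;> cases b <;> cases c <;> simp <;> ring

theorem subS_val (l : List (Bool × Bool)) (s : Bool × List Bool) :
    val (l.foldl subS s).2.reverse + 2 ^ s.2.length * (val (l.map Prod.snd) + s.1.toNat) =
      val s.2.reverse + 2 ^ s.2.length * val (l.map Prod.fst) +
        2 ^ (l.foldl subS s).2.length * (l.foldl subS s).1.toNat := by
  induction l generalizing s with
  | nil => simp [val]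
  | cons p l ih =>
    rw [List.foldl_cons]
    have h := ih (subS s p)
    generalize List.foldl subS (subS s p) l = t at h ⊢
    rw [subS] at h
    obtain ⟨c, o⟩ := s
    obtain ⟨a, b⟩ := p
    simp only [List.reverse_cons, val_append, List.length_cons, List.map_cons, val,
      List.length_reverse, pow_succ] at h ⊢
    generalize val (l.map Prod.fst) = A at h ⊢
    generalize val (l.map Prod.snd) = B at h ⊢
    generalize (2 ^ o.length) = N at h ⊢
    generalize val o.reverse = M at h ⊢
    generalize 2 ^ t.2.length * t.1.toNat = T at h ⊢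
    generalize val t.2.reverse = X at h ⊢
    cases a <;> cases b <;> cases c <;> simp at h ⊢ <;> nlinarith [h]

/-- the bits of the sum -/
def addB (u v : List Bool) : List Bool :=
  ((pz u v).foldl addS (false, [])).2.reverse ++ [((pz u v).foldl addS (false, [])).1]

theorem val_addB (u v : List Bool) : val (addB u v) = val u + val v := by
  have h := addS_val (pz u v) (false, [])
  rw [pz_fst, pz_snd] at h
  rw [addB, val_append, List.length_reverse]
  simp [val] at h ⊢
  exact h

/-- the bits of the difference, and whether the subtraction has a borrow -/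
def subB (u v : List Bool) : Bool × List Bool := (pz u v).foldl subS (false, [])

theorem subB_fst (u v : List Bool) : (subB u v).1 = decide (val u < val v) := by
  have h := subS_val (pz u v) (false, [])
  rw [pz_fst, pz_snd] at h
  change _ + _ = _ + _ + 2 ^ (subB u v).2.length * (subB u v).1.toNat at h
  have h2 := val_lt (subB u v).2.reverse
  change val (subB u v).2.reverse + _ = _ at h
  rw [List.length_reverse] at h2
  generalize val (subB u v).2.reverse = X at h h2
  generalize 2 ^ (subB u v).2.length = N at h h2
  cases h3 : (subB u v).1 <;> simp [h3, val] at h ⊢ <;> omega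

theorem subB_snd (u v : List Bool) (h0 : val v ≤ val u) :
    val (subB u v).2.reverse = val u - val v := by
  have h := subS_val (pz u v) (false, [])
  rw [pz_fst, pz_snd] at h
  change _ + _ = _ + _ + 2 ^ (subB u v).2.length * (subB u v).1.toNat at h
  change val (subB u v).2.reverse + _ = _ at h
  rw [subB_fst, decide_eq_false (by omega)] at h
  generalize val (subB u v).2.reverse = X at h
  simp [val] at h
  omega

section

variable {γ : Type} [ToD γ]

theorem PF.repl {n : γ → ℕ} (hn : PF n) {β : Type} [ToD β] (b : β) :
    PF (fun c => List.replicate (n c) b) := hn.replicate b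

theorem PF.pz {f g : γ → List Bool} (hf : PF f) (hg : PF g) : PF (fun c => pz (f c) (g c)) :=
  PF.zip (hf.append (hg.length.replicate false)) (hg.append (hf.length.replicate false))

theorem PF.addB {f g : γ → List Bool} (hf : PF f) (hg : PF g) :
    PF (fun c => addB (f c) (g c)) := by
  obtain ⟨P, hP⟩ := (hf.pz hg).bound
  have h : PF (fun c => (PolyTime.pz (f c) (g c)).foldl addS (false, [])) := by
    refine PF.foldl' (f := fun _ s p => addS s p) ?_ (PF.const (false, [])) (hf.pz hg)
      (Polynomial.C 4 * P + 5) ?_
    · exact PF.pair ((PF.id'.snd.fst.and PF.id'.snd.snd).or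
        (PF.id'.fst.snd.fst.and (PF.id'.snd.fst.or PF.id'.snd.snd)))
        (PF.cons (((PF.id'.snd.fst.boolEq (PF.id'.snd.snd.boolEq
          PF.id'.fst.snd.fst))).cast (fun x => by
            obtain ⟨⟨_, c, _⟩, a, b⟩ := x
            change toD (a ^^ b ^^ c) = toD (a == (b == c))
            cases a <;> cases b <;> cases c <;> rfl)) PF.id'.fst.snd.snd)
    · intro c l' hl'
      rw [show (fun s p => addS s p) = addS from rfl]
      have h1 := addS_length l' (false, [])
      have h2 := hP c
      have h3 := (sz_prefix hl')
      have h4 := length_le_sz l'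
      generalize l'.foldl addS (false, []) = t at h1 ⊢
      obtain ⟨a, t⟩ := t
      rw [sz_pair]
      have h5 := sz_bool a
      have h6 := sz_bits_le t
      simp only [Polynomial.eval_add, Polynomial.eval_mul, Polynomial.eval_C,
        Polynomial.eval_ofNat]
      simp at h1
      omega
  exact h.snd.reverse.append (h.fst.cons (PF.const []))

theorem PF.subB {f g : γ → List Bool} (hf : PF f) (hg : PF g) :
    PF (fun c => subB (f c) (g c)) := by
  obtain ⟨P, hP⟩ := (hf.pz hg).bound
  have h : PF (fun c => (PolyTime.pz (f c) (g c)).foldl subS (false, [])) := by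
    refine PF.foldl' (f := fun _ s p => subS s p) ?_ (PF.const (false, [])) (hf.pz hg)
      (Polynomial.C 4 * P + 5) ?_
    · exact PF.pair ((PF.id'.snd.fst.not.and (PF.id'.snd.snd.or PF.id'.fst.snd.fst)).or
        (PF.id'.snd.snd.and PF.id'.fst.snd.fst))
        (PF.cons (((PF.id'.snd.fst.boolEq (PF.id'.snd.snd.boolEq
          PF.id'.fst.snd.fst))).cast (fun x => by
            obtain ⟨⟨_, c, _⟩, a, b⟩ := x
            change toD (a ^^ b ^^ c) = toD (a == (b == c))
            cases a <;> cases b <;> cases c <;> rfl)) PF.id'.fst.snd.snd)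
    · intro c l' hl'
      rw [show (fun s p => subS s p) = subS from rfl]
      have h1 := subS_length l' (false, [])
      have h2 := hP c
      have h3 := (sz_prefix hl')
      have h4 := length_le_sz l'
      generalize l'.foldl subS (false, []) = t at h1 ⊢
      obtain ⟨a, t⟩ := t
      rw [sz_pair]
      have h5 := sz_bool a
      have h6 := sz_bits_le t
      simp only [Polynomial.eval_add, Polynomial.eval_mul, Polynomial.eval_C,
        Polynomial.eval_ofNat]
      simp at h1
      omega
  exact h

end

/-! ### functions with values in binary numbers -/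

/-- A function with values in the natural numbers is computable in polynomial time if the values
are written in binary. -/
abbrev PN {γ : Type} [ToD γ] (f : γ → ℕ) : Prop := PF (fun c => Bn.mk (f c))

section

variable {γ α : Type} [ToD γ] [ToD α]

theorem PN.ofBn {f : γ → Bn} (hf : PF f) : PN (fun c => (f c).n) := hf

theorem PN.const (k : ℕ) : PN (fun _ : γ => k) := PF.const _

theorem PN.comp {f : α → ℕ} {g : γ → α} (hf : PN f) (hg : PF g) : PN (fun c => f (g c)) :=
  PF.comp (f := g) (g := fun b => Bn.mk (f b)) hf hg

theorem PN.congr {f g : γ → ℕ} (hf : PN f) (h : ∀ c, g c = f c) : PN g :=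
  PF.cast (f := fun c => Bn.mk (f c)) hf (fun c => by rw [h c])

theorem PN.bits {f : γ → ℕ} (hf : PN f) : PF (fun c => Nat.bits (f c)) := hf.bnBits

theorem PN.add {f g : γ → ℕ} (hf : PN f) (hg : PN g) : PN (fun c => f c + g c) :=
  PF.bnOf (hf.bits.addB hg.bits) (fun c => by rw [val_addB, val_bits, val_bits])

theorem PN.lt {f g : γ → ℕ} (hf : PN f) (hg : PN g) : PF (fun c => decide (f c < g c)) :=
  (hf.bits.subB hg.bits).fst.cast (fun c => by rw [subB_fst, val_bits, val_bits])

theorem PN.le {f g : γ → ℕ} (hf : PN f) (hg : PN g) : PF (fun c => decide (f c ≤ g c)) :=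
  (hg.lt hf).not.cast (fun c => by
    congr 1
    rw [← decide_not, decide_eq_decide, not_lt])

theorem PN.eq {f g : γ → ℕ} (hf : PN f) (hg : PN g) : PF (fun c => decide (f c = g c)) :=
  PF.bnEq hf hg

theorem PN.sub {f g : γ → ℕ} (hf : PN f) (hg : PN g) : PN (fun c => f c - g c) := by
  refine PF.bnOf (PF.ite (hf.lt hg) (PF.const [])
    (hf.bits.subB hg.bits).snd.reverse) (fun c => ?_)
  by_cases h : f c < g c
  · rw [if_pos (by simpa using h)]
    simp only [val]
    omega
  · rw [if_neg (by simpa using h), subB_snd _ _ (by rw [val_bits, val_bits]; omega), val_bits,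
      val_bits]

theorem PN.ite {p : γ → Bool} {f g : γ → ℕ} (hp : PF p) (hf : PN f) (hg : PN g) :
    PN (fun c => if p c then f c else g c) :=
  (PF.ite hp hf hg).cast (fun c => by
    change toD (Bn.mk (if p c then f c else g c)) = toD (if p c then Bn.mk (f c) else Bn.mk (g c))
    cases p c <;> rfl)

/-- `2 f + b` -/
theorem PN.dbl {f : γ → ℕ} {b : γ → Bool} (hf : PN f) (hb : PF b) :
    PN (fun c => (b c).toNat + 2 * f c) :=
  PF.bnOf (hb.cons hf.bits) (fun c => by rw [val, val_bits])

theorem PN.half {f : γ → ℕ} (hf : PN f) : PN (fun c => f c / 2) :=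
  PF.bnOf hf.bits.tail (fun c => by
    have h : val (Nat.bits (f c)) = f c := val_bits _
    cases h1 : Nat.bits (f c) with
    | nil =>
      rw [h1] at h
      rw [← h]
      simp [val]
    | cons a l =>
      rw [h1] at h
      rw [← h, List.tail_cons, val]
      cases a <;> simp <;> omega)

theorem PN.val {f : γ → List Bool} (hf : PF f) : PN (fun c => val (f c)) := hf.bnOfBits

theorem PN.size {f : γ → ℕ} (hf : PN f) : PF (fun c => Nat.size (f c)) := hf.bnSize

theorem PN.bound {f : γ → ℕ} (hf : PN f) : ∃ P : Polynomial ℕ, ∀ c, Nat.size (f c) ≤ P.eval (sz c) := by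
  obtain ⟨P, hP⟩ := PF.bound hf
  exact ⟨P, fun c => (size_le_sz _).trans (hP c)⟩

/-- Folding with a state that is a number in binary. -/
theorem PN.foldl {f : γ → ℕ → α → ℕ} {b : γ → ℕ} {l : γ → List α}
    (hf : PN (fun x : (γ × Bn) × α => f x.1.1 x.1.2.n x.2)) (hb : PN b) (hl : PF l)
    (P : Polynomial ℕ)
    (hP : ∀ c l', l' <+: l c → Nat.size (l'.foldl (f c) (b c)) ≤ P.eval (sz c)) :
    PN (fun c => (l c).foldl (f c) (b c)) := by
  have key : ∀ (c : γ) (l : List α) (s : ℕ),
      l.foldl (fun (s : Bn) a => Bn.mk (f c s.n a)) (Bn.mk s) = Bn.mk (l.foldl (f c) s) := by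
    intro c l
    induction l with
    | nil => intro s; rfl
    | cons a l ih => intro s; rw [List.foldl_cons, List.foldl_cons, ih]
  have h : PF (fun c => (l c).foldl (fun (s : Bn) a => Bn.mk (f c s.n a)) (Bn.mk (b c))) := by
    refine PF.foldl' (f := fun c (s : Bn) a => Bn.mk (f c s.n a)) hf hb hl
      (Polynomial.C 4 * P + 1) ?_
    intro c l' hl'
    rw [key]
    have h1 := hP c l' hl'
    have h2 := sz_bn (l'.foldl (f c) (b c))
    simp only [Polynomial.eval_add, Polynomial.eval_mul, Polynomial.eval_C,
      Polynomial.eval_one]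
    omega
  exact h.cast (fun c => by rw [key])

theorem mul_fold (a : ℕ) (l : List Bool) (s : ℕ) :
    l.foldl (fun s b => (false.toNat + 2 * s) + (if b then a else 0)) s =
      2 ^ l.length * s + a * W_d799b0_h82.val l.reverse := by
  induction l generalizing s with
  | nil => simp [W_d799b0_h82.val]
  | cons b l ih =>
    rw [List.foldl_cons, ih, List.reverse_cons, val_append, List.length_reverse,
      List.length_cons, pow_succ]
    cases b <;> simp [W_d799b0_h82.val] <;> ring

theorem PN.mul {f g : γ → ℕ} (hf : PN f) (hg : PN g) : PN (fun c => f c * g c) := by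
  obtain ⟨P, hP⟩ := hf.bound
  obtain ⟨Q, hQ⟩ := hg.bound
  have h : PN (fun c => (Nat.bits (g c)).reverse.foldl
      (fun s b => (false.toNat + 2 * s) + (if b then f c else 0)) 0) := by
    refine PN.foldl (f := fun c s b => (false.toNat + 2 * s) + (if b then f c else 0)) ?_
      (PN.const 0) hg.bits.reverse (P + Q) ?_
    · exact PN.add (PN.dbl (PN.ofBn PF.id'.fst.snd) (PF.const false))
        (PN.ite PF.id'.snd (PN.comp hf PF.id'.fst.fst) (PN.const 0))
    · intro c l' hl'
      rw [mul_fold]
      have h1 := hP c
      have h2 := hQ c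
      have h3 : l'.length ≤ Nat.size (g c) := by
        have := hl'.length_le
        rwa [List.length_reverse, Nat.size_eq_bits_len] at this
      have h4 := val_lt l'.reverse
      rw [List.length_reverse] at h4
      rw [Nat.size_le, Polynomial.eval_add]
      have h5 : f c < 2 ^ (P.eval (sz c)) := Nat.size_le.1 h1
      have h6 : W_d799b0_h82.val l'.reverse < 2 ^ (Q.eval (sz c)) :=
        h4.trans_le (Nat.pow_le_pow_right (by norm_num) (h3.trans h2))
      rw [pow_add]
      calc _ = f c * W_d799b0_h82.val l'.reverse := by ring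
        _ < _ := Nat.mul_lt_mul'' h5 h6
  exact h.congr (fun c => by rw [mul_fold, List.reverse_reverse, val_bits]; ring)

/-- one step of long division -/
def modS (m : ℕ) (s : ℕ) (b : Bool) : ℕ :=
  if b.toNat + 2 * s < m then b.toNat + 2 * s else b.toNat + 2 * s - m

theorem mod_fold (m : ℕ) (l : List Bool) : l.foldl (modS m) 0 = W_d799b0_h82.val l.reverse % m := by
  induction l using List.reverseRecOn with
  | nil => simp [W_d799b0_h82.val]
  | append_singleton l b ih =>
    rw [List.foldl_append, ih, List.reverse_append, List.reverse_singleton, List.singleton_append,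
      W_d799b0_h82.val, List.foldl_cons, List.foldl_nil, modS]
    generalize W_d799b0_h82.val l.reverse = v
    rcases Nat.eq_zero_or_pos m with h | h
    · subst h
      simp
    · have h1 : (b.toNat + 2 * v) % m = (b.toNat + 2 * (v % m)) % m := by
        conv_lhs => rw [Nat.add_mod, Nat.mul_mod]
        conv_rhs => rw [Nat.add_mod, Nat.mul_mod, Nat.mod_mod]
      rw [h1]
      have h2 := Nat.mod_lt v h
      have h3 : b.toNat ≤ 1 := by cases b <;> simp
      generalize v % m = w at h2 ⊢
      split_ifs with h4
      · rw [Nat.mod_eq_of_lt h4]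
      · rw [Nat.mod_eq_sub_mod (by omega), Nat.mod_eq_of_lt (by omega)]

theorem PN.mod {f g : γ → ℕ} (hf : PN f) (hg : PN g) : PN (fun c => f c % g c) := by
  obtain ⟨P, hP⟩ := hf.bound
  have h : PN (fun c => (Nat.bits (f c)).reverse.foldl (modS (g c)) 0) := by
    refine PN.foldl (f := fun c s b => modS (g c) s b) ?_ (PN.const 0) hf.bits.reverse P ?_
    · have h1 : PN (fun x : (γ × Bn) × Bool => x.2.toNat + 2 * x.1.2.n) :=
        PN.dbl (PN.ofBn PF.id'.fst.snd) PF.id'.snd
      have h2 : PN (fun x : (γ × Bn) × Bool => g x.1.1) := PN.comp hg PF.id'.fst.fst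
      exact (PN.ite (h1.lt h2) h1 (h1.sub h2)).congr (fun x => by
        rw [modS]
        by_cases h : x.2.toNat + 2 * x.1.2.n < g x.1.1 <;> simp [h])
    · intro c l' hl'
      rw [show (fun s b => modS (g c) s b) = modS (g c) from rfl, mod_fold]
      refine (Nat.size_le_size (Nat.mod_le _ _)).trans ((size_val_le _).trans ?_)
      rw [List.length_reverse]
      have := hl'.length_le
      rw [List.length_reverse, Nat.size_eq_bits_len] at this
      exact this.trans (hP c)
  exact h.congr (fun c => by rw [mod_fold, List.reverse_reverse, val_bits])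

/-- from unary to binary -/
theorem PN.ofNat {f : γ → ℕ} (hf : PF f) : PN f := by
  obtain ⟨P, hP⟩ := hf.bound
  have key : ∀ (k : ℕ) (l : List ℕ), l.length = k → l.foldl (fun s _ => s + 1) 0 = k := by
    intro k l hl
    have : ∀ (l : List ℕ) (s : ℕ), l.foldl (fun s _ => s + 1) s = s + l.length := by
      intro l
      induction l with
      | nil => intro s; rfl
      | cons a l ih => intro s; rw [List.foldl_cons, ih, List.length_cons]; omega
    rw [this, hl, Nat.zero_add]
  have h : PN (fun c => (List.range (f c)).foldl (fun s _ => s + 1) 0) := by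
    refine PN.foldl (f := fun _ s _ => s + 1) (PN.add (PN.ofBn PF.id'.fst.snd) (PN.const 1))
      (PN.const 0) hf.range P ?_
    intro c l' hl'
    rw [key _ _ rfl]
    have h1 := hl'.length_le
    rw [List.length_range] at h1
    have h2 := hP c
    rw [sz_nat] at h2
    have h3 : Nat.size l'.length ≤ l'.length := Nat.size_le.2 Nat.lt_two_pow_self
    omega
  exact h.congr (fun c => by rw [key _ _ List.length_range])

/-- from binary to unary, for bounded numbers -/
theorem PN.toMin {f g : γ → ℕ} (hf : PN f) (hg : PF g) : PF (fun c => min (g c) (f c)) := by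
  have h : PF (fun c => ((List.range (g c)).filter (fun i => decide (i < f c))).length) :=
    (PF.filter (g := fun c i => decide (i < f c))
      ((PN.ofNat PF.id'.snd).lt (PN.comp hf PF.id'.fst)) hg.range).length
  refine h.cast (fun c => ?_)
  congr 1
  generalize g c = n
  generalize f c = k
  induction n with
  | zero => simp
  | succ n ih =>
    rw [List.range_succ, List.filter_append, List.length_append, ← ih]
    by_cases h : n < k
    · simp [h]
      omega
    · simp [h]
      omega

theorem PN.toNat {f g : γ → ℕ} (hf : PN f) (hg : PF g) (h : ∀ c, f c ≤ g c) : PF f :=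
  (hf.toMin hg).cast (fun c => by simp only [min_eq_right (h c)])

theorem PN.ofBool {p : γ → Bool} (hp : PF p) : PN (fun c => (p c).toNat) :=
  (PN.dbl (PN.const 0) hp).congr (fun c => by simp)

theorem PN.max {f g : γ → ℕ} (hf : PN f) (hg : PN g) : PN (fun c => Nat.max (f c) (g c)) :=
  (PN.ite (hf.le hg) hg hf).congr (fun c => by
    by_cases h : f c ≤ g c
    · simp [h]
    · simp [h]
      omega)

end

/-! ### the names used elsewhere -/

section

variable {γ : Type} [ToD γ]

theorem PF.bnOfNat {f : γ → ℕ} (hf : PF f) : PF (fun c => Bn.mk (f c)) := PN.ofNat hf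

theorem PF.bnAdd {f g : γ → Bn} (hf : PF f) (hg : PF g) :
    PF (fun c => Bn.mk ((f c).n + (g c).n)) := PN.add (PN.ofBn hf) (PN.ofBn hg)

theorem PF.bnSub {f g : γ → Bn} (hf : PF f) (hg : PF g) :
    PF (fun c => Bn.mk ((f c).n - (g c).n)) := PN.sub (PN.ofBn hf) (PN.ofBn hg)

theorem PF.bnMul {f g : γ → Bn} (hf : PF f) (hg : PF g) :
    PF (fun c => Bn.mk ((f c).n * (g c).n)) := PN.mul (PN.ofBn hf) (PN.ofBn hg)

theorem PF.bnMod {f g : γ → Bn} (hf : PF f) (hg : PF g) :
    PF (fun c => Bn.mk ((f c).n % (g c).n)) := PN.mod (PN.ofBn hf) (PN.ofBn hg)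

theorem PF.bnLt {f g : γ → Bn} (hf : PF f) (hg : PF g) :
    PF (fun c => decide ((f c).n < (g c).n)) := PN.lt (PN.ofBn hf) (PN.ofBn hg)

theorem PF.bnLe {f g : γ → Bn} (hf : PF f) (hg : PF g) :
    PF (fun c => decide ((f c).n ≤ (g c).n)) := PN.le (PN.ofBn hf) (PN.ofBn hg)

end

end Pool.Agent.PolyTime
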