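import Pool.Agent.W_d799b0_h42.BinA

/-! Polynomial time arithmetic, second part: division of natural numbers, integers in binary. -/

set_option autoImplicit false
set_option linter.unusedSectionVars false

namespace Pool.Agent.PolyTime

open Turing Function
open Pool.Agent.W_d799b0_h82 (Bn val)

section

variable {γ α : Type} [ToD γ] [ToD α]

/-! ### division of natural numbers -/

/-- one step of long division: state `(quotient, remainder)` -/
def divS (m : ℕ) (s : ℕ × ℕ) (b : Bool) : ℕ × ℕ :=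
  if b.toNat + 2 * s.2 < m then (2 * s.1, b.toNat + 2 * s.2) else (2 * s.1 + 1, b.toNat + 2 * s.2 - m)

theorem div_fold (m : ℕ) (hm : 0 < m) (l : List Bool) : l.foldl (divS m) (0, 0) =
    (W_d799b0_h82.val l.reverse / m, W_d799b0_h82.val l.reverse % m) := by
  induction l using List.reverseRecOn with
  | nil => simp [W_d799b0_h82.val]
  | append_singleton l b ih =>
    rw [List.foldl_append, ih, List.reverse_append, List.reverse_singleton, List.singleton_append,
      W_d799b0_h82.val, List.foldl_cons, List.foldl_nil, divS]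
    generalize W_d799b0_h82.val l.reverse = v
    have h2 := Nat.mod_lt v hm
    have h3 : b.toNat ≤ 1 := by cases b <;> simp
    have h4 := Nat.div_add_mod v m
    dsimp only
    generalize v % m = w at h2 h4 ⊢
    generalize v / m = q at h4 ⊢
    subst h4
    split_ifs with h5
    · have h6 : b.toNat + 2 * (m * q + w) = m * (2 * q) + (b.toNat + 2 * w) := by ring
      rw [h6, Nat.mul_add_mod, Nat.mod_eq_of_lt h5, Nat.mul_add_div hm, Nat.div_eq_of_lt h5,
        Nat.add_zero]
    · have h6 : b.toNat + 2 * (m * q + w) = m * (2 * q + 1) + (b.toNat + 2 * w - m) := by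
        have : m * (2 * q + 1) = m * (2 * q) + m := by ring
        have h7 : 2 * (m * q + w) = m * (2 * q) + 2 * w := by ring
        omega
      have h7 : b.toNat + 2 * w - m < m := by omega
      rw [h6, Nat.mul_add_mod, Nat.mod_eq_of_lt h7, Nat.mul_add_div hm, Nat.div_eq_of_lt h7,
        Nat.add_zero]

theorem PN.divPos {f g : γ → ℕ} (hf : PN f) (hg : PN g) (hpos : ∀ c, 0 < g c) :
    PN (fun c => f c / g c) := by
  obtain ⟨P, hP⟩ := hf.bound
  have key : ∀ (c : γ) (l : List Bool) (s : ℕ × ℕ),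
      l.foldl (fun (s : Bn × Bn) b => (Bn.mk (divS (g c) (s.1.n, s.2.n) b).1,
        Bn.mk (divS (g c) (s.1.n, s.2.n) b).2)) (Bn.mk s.1, Bn.mk s.2) =
        (Bn.mk (l.foldl (divS (g c)) s).1, Bn.mk (l.foldl (divS (g c)) s).2) := by
    intro c l
    induction l with
    | nil => intro s; rfl
    | cons a l ih =>
      intro s
      rw [List.foldl_cons, List.foldl_cons, ← ih]
  have hstep : ∀ (x : (γ × (Bn × Bn)) × Bool), (Bn.mk (divS (g x.1.1) (x.1.2.1.n, x.1.2.2.n) x.2).1,
      Bn.mk (divS (g x.1.1) (x.1.2.1.n, x.1.2.2.n) x.2).2) =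
      if decide (x.2.toNat + 2 * x.1.2.2.n < g x.1.1) then
        (Bn.mk (false.toNat + 2 * x.1.2.1.n), Bn.mk (x.2.toNat + 2 * x.1.2.2.n)) else
        (Bn.mk (true.toNat + 2 * x.1.2.1.n), Bn.mk (x.2.toNat + 2 * x.1.2.2.n - g x.1.1)) := by
    intro x
    rw [divS]
    by_cases h : x.2.toNat + 2 * x.1.2.2.n < g x.1.1
    · rw [if_pos h, if_pos (by simpa using h)]
      simp
    · rw [if_neg h, if_neg (by simpa using h)]
      simp [Nat.add_comm]
  have h : PF (fun c => ((Nat.bits (f c)).reverse.foldl (fun (s : Bn × Bn) b =>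
      (Bn.mk (divS (g c) (s.1.n, s.2.n) b).1, Bn.mk (divS (g c) (s.1.n, s.2.n) b).2))
        (Bn.mk 0, Bn.mk 0)).1) := by
    refine PF.fst (PF.foldl' (f := fun c (s : Bn × Bn) b =>
      (Bn.mk (divS (g c) (s.1.n, s.2.n) b).1, Bn.mk (divS (g c) (s.1.n, s.2.n) b).2)) ?_
      (PF.const (Bn.mk 0, Bn.mk 0)) hf.bits.reverse (Polynomial.C 8 * P + 3) ?_)
    · have h1 : PN (fun x : (γ × (Bn × Bn)) × Bool => x.2.toNat + 2 * x.1.2.2.n) :=
        PN.dbl (PN.ofBn PF.id'.fst.snd.snd) PF.id'.snd
      have h2 : PN (fun x : (γ × (Bn × Bn)) × Bool => g x.1.1) := PN.comp hg PF.id'.fst.fst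
      have h3 : PN (fun x : (γ × (Bn × Bn)) × Bool => false.toNat + 2 * x.1.2.1.n) :=
        PN.dbl (PN.ofBn PF.id'.fst.snd.fst) (PF.const false)
      have h4 : PN (fun x : (γ × (Bn × Bn)) × Bool => true.toNat + 2 * x.1.2.1.n) :=
        PN.dbl (PN.ofBn PF.id'.fst.snd.fst) (PF.const true)
      have h5 : PF (fun x : (γ × (Bn × Bn)) × Bool =>
        if decide (x.2.toNat + 2 * x.1.2.2.n < g x.1.1) then
        (Bn.mk (false.toNat + 2 * x.1.2.1.n), Bn.mk (x.2.toNat + 2 * x.1.2.2.n)) else
        (Bn.mk (true.toNat + 2 * x.1.2.1.n), Bn.mk (x.2.toNat + 2 * x.1.2.2.n - g x.1.1))) :=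
        PF.ite (h1.lt h2) (PF.pair h3 h1) (PF.pair h4 (h1.sub h2))
      exact h5.cast (fun x => by rw [hstep])
    · intro c l' hl'
      rw [key c l' (0, 0), div_fold _ (hpos c), sz_pair]
      have h1 : l'.length ≤ P.eval (sz c) := by
        have := hl'.length_le
        rw [List.length_reverse, Nat.size_eq_bits_len] at this
        exact this.trans (hP c)
      have h2 := size_val_le l'.reverse
      rw [List.length_reverse] at h2
      have h3 := sz_bn (W_d799b0_h82.val l'.reverse / g c)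
      have h4 := sz_bn (W_d799b0_h82.val l'.reverse % g c)
      have h5 := Nat.size_le_size (Nat.div_le_self (W_d799b0_h82.val l'.reverse) (g c))
      have h6 := Nat.size_le_size (Nat.mod_le (W_d799b0_h82.val l'.reverse) (g c))
      simp only [Polynomial.eval_add, Polynomial.eval_mul, Polynomial.eval_C,
        Polynomial.eval_ofNat]
      omega
  exact h.cast (fun c => by
    rw [key c _ (0, 0), div_fold _ (hpos c), List.reverse_reverse, val_bits])

theorem PN.div {f g : γ → ℕ} (hf : PN f) (hg : PN g) : PN (fun c => f c / g c) := by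
  have h1 : PN (fun c => if decide (g c = 0) then 1 else g c) :=
    PN.ite (hg.eq (PN.const 0)) (PN.const 1) hg
  have h2 := hf.divPos h1 (fun c => by
    by_cases h : g c = 0
    · simp [h]
    · simp [h]
      omega)
  exact (PN.ite (hg.eq (PN.const 0)) (PN.const 0) h2).congr (fun c => by
    by_cases h : g c = 0
    · simp [h]
    · simp [h])

/-- multiplication by a power of two, the exponent in unary -/
theorem PN.shift {f : γ → ℕ} {k : γ → ℕ} (hf : PN f) (hk : PF k) :
    PN (fun c => 2 ^ k c * f c) :=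
  PF.bnOf ((hk.replicate false).append hf.bits) (fun c => by
    rw [val_append, val_replicate, val_bits, List.length_replicate]
    simp)

theorem PN.pow2 {k : γ → ℕ} (hk : PF k) : PN (fun c => 2 ^ k c) :=
  (PN.shift (PN.const 1) hk).congr (fun c => by rw [Nat.mul_one])

theorem PN.min {f g : γ → ℕ} (hf : PN f) (hg : PN g) : PN (fun c => Nat.min (f c) (g c)) :=
  (PN.ite (hf.le hg) hf hg).congr (fun c => by
    by_cases h : f c ≤ g c
    · simp [h]
    · simp [h]
      omega)

end

/-! ### integers in binary -/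

/-- An integer is represented by its sign and its absolute value in binary. -/
instance : ToD ℤ := ⟨fun z => toD (decide (z < 0), Bn.mk z.natAbs)⟩

theorem toD_int (z : ℤ) : toD z = toD (decide (z < 0), Bn.mk z.natAbs) := rfl

theorem sz_int_eq (z : ℤ) : sz z = sz (decide (z < 0), Bn.mk z.natAbs) := rfl

theorem sz_int (x : ℤ) : sz x ≤ 4 * Nat.size x.natAbs + 5 := by
  rw [sz_int_eq, sz_pair]
  have h1 := sz_bool (decide (x < 0))
  have h2 := sz_bn x.natAbs
  omega

theorem size_natAbs_le_sz (x : ℤ) : Nat.size x.natAbs ≤ sz x := by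
  rw [sz_int_eq, sz_pair]
  have h2 := size_le_sz x.natAbs
  omega

theorem natAbs_lt_sz (x : ℤ) : x.natAbs < 2 ^ sz x := Nat.size_le.1 (size_natAbs_le_sz x)

theorem sz_int_le {x : ℤ} {k : ℕ} (h : x.natAbs < 2 ^ k) : sz x ≤ 4 * k + 5 :=
  (sz_int x).trans (by
    have := Nat.size_le.2 h
    omega)

instance : ToDInj ℤ := ⟨fun a b h => by
  have h1 : (decide (a < 0), Bn.mk a.natAbs) = (decide (b < 0), Bn.mk b.natAbs) :=
    ToDInj.inj h
  rw [Prod.mk.injEq, Bn.mk.injEq, decide_eq_decide] at h1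
  omega⟩

section

variable {γ α : Type} [ToD γ] [ToD α]

theorem PZ.congr {f g : γ → ℤ} (hf : PF f) (h : ∀ c, g c = f c) : PF g :=
  hf.cast (fun c => by rw [h c])

theorem PZ.pair {f : γ → ℤ} (hf : PF f) :
    PF (fun c => (decide (f c < 0), Bn.mk (f c).natAbs)) :=
  PF.cast (f := f) hf (fun _ => rfl)

theorem PZ.isNeg {f : γ → ℤ} (hf : PF f) : PF (fun c => decide (f c < 0)) := (PZ.pair hf).fst

/-- the absolute value -/
theorem PZ.abs {f : γ → ℤ} (hf : PF f) : PN (fun c => (f c).natAbs) := (PZ.pair hf).snd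

/-- An integer valued function is computable if its sign (arbitrary for the value zero) and its
absolute value are. -/
theorem PZ.of {s : γ → Bool} {a : γ → ℕ} {f : γ → ℤ} (hs : PF s) (ha : PN a)
    (h : ∀ c, f c = if s c then -(a c : ℤ) else (a c : ℤ)) : PF f := by
  have h1 : PF (fun c => (s c && !decide (a c = 0), Bn.mk (a c))) :=
    PF.pair (hs.and (ha.eq (PN.const 0)).not) ha
  exact h1.cast (fun c => by
    rw [toD_int]
    congr 1
    rw [Prod.mk.injEq, Bn.mk.injEq]
    rw [h c]
    cases s c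
    · simp
    · constructor
      · simp only [if_true, Bool.true_and]
        by_cases h2 : a c = 0
        · simp [h2]
        · have h3 : -((a c : ℕ) : ℤ) < 0 := by omega
          simp only [h3, h2, decide_true, decide_false, Bool.not_false]
      · simp)

theorem PZ.ofNat {f : γ → ℕ} (hf : PN f) : PF (fun c => (f c : ℤ)) :=
  PZ.of (PF.const false) hf (fun c => by simp)

/-- from unary -/
theorem PZ.ofUnary {f : γ → ℕ} (hf : PF f) : PF (fun c => (f c : ℤ)) := PZ.ofNat (PN.ofNat hf)

theorem PZ.neg {f : γ → ℤ} (hf : PF f) : PF (fun c => -f c) :=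
  PZ.of (PZ.isNeg hf).not (PZ.abs hf) (fun c => by
    by_cases h : f c < 0
    · simp only [h, decide_true, Bool.not_true, Bool.false_eq_true, if_false]
      omega
    · simp only [h, decide_false, Bool.not_false, if_true]
      omega)

theorem PZ.add {f g : γ → ℤ} (hf : PF f) (hg : PF g) : PF (fun c => f c + g c) := by
  have hs : PF (fun c => decide (f c < 0) == decide (g c < 0)) :=
    (PZ.isNeg hf).boolEq (PZ.isNeg hg)
  have hle : PF (fun c => decide ((g c).natAbs ≤ (f c).natAbs)) := PN.le (PZ.abs hg) (PZ.abs hf)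
  refine PZ.of (s := fun c => if decide ((g c).natAbs ≤ (f c).natAbs) then decide (f c < 0) else
      decide (g c < 0))
    (a := fun c => if decide (f c < 0) == decide (g c < 0) then (f c).natAbs + (g c).natAbs else
      if decide ((g c).natAbs ≤ (f c).natAbs) then (f c).natAbs - (g c).natAbs else
        (g c).natAbs - (f c).natAbs)
    (PF.ite hle (PZ.isNeg hf) (PZ.isNeg hg))
    (PN.ite hs ((PZ.abs hf).add (PZ.abs hg))
      (PN.ite hle ((PZ.abs hf).sub (PZ.abs hg)) ((PZ.abs hg).sub (PZ.abs hf)))) ?_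
  intro c
  generalize f c = x
  generalize g c = y
  by_cases h1 : x < 0 <;> by_cases h2 : y < 0 <;> by_cases h3 : y.natAbs ≤ x.natAbs <;>
    simp only [h1, h2, h3, decide_true, decide_false, Bool.true_beq, Bool.false_beq, Bool.not_true,
      Bool.not_false, Bool.false_eq_true, if_true, if_false] <;> omega

theorem PZ.sub {f g : γ → ℤ} (hf : PF f) (hg : PF g) : PF (fun c => f c - g c) :=
  PZ.congr (PZ.add hf (PZ.neg hg)) (fun c => by rw [sub_eq_add_neg])

theorem PZ.mul {f g : γ → ℤ} (hf : PF f) (hg : PF g) : PF (fun c => f c * g c) := by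
  refine PZ.of (s := fun c => decide (f c < 0) ^^ decide (g c < 0))
    (a := fun c => (f c).natAbs * (g c).natAbs)
    ((((PZ.isNeg hf).boolEq (PZ.isNeg hg)).not).cast (fun c => by
      cases decide (f c < 0) <;> cases decide (g c < 0) <;> rfl)) ((PZ.abs hf).mul (PZ.abs hg)) ?_
  intro c
  generalize f c = x
  generalize g c = y
  have hx : ∀ z : ℤ, ∃ a : ℕ, z.natAbs = a ∧ ((z < 0 ∧ z = -(a : ℤ)) ∨ (¬ z < 0 ∧ z = (a : ℤ))) := by
    intro z
    refine ⟨z.natAbs, rfl, ?_⟩
    omega
  obtain ⟨a, ha, h1⟩ := hx x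
  obtain ⟨b, hb, h2⟩ := hx y
  rw [ha, hb]
  rcases h1 with ⟨h1, h3⟩ | ⟨h1, h3⟩ <;> rcases h2 with ⟨h2, h4⟩ | ⟨h2, h4⟩ <;>
    simp only [h1, h2, decide_true, decide_false, Bool.xor_true, Bool.xor_false, Bool.not_true,
      Bool.not_false, Bool.false_eq_true, if_true, if_false] <;> rw [h3, h4] <;> push_cast <;> ring

theorem PZ.lt {f g : γ → ℤ} (hf : PF f) (hg : PF g) : PF (fun c => decide (f c < g c)) :=
  (PZ.isNeg (PZ.sub hf hg)).cast (fun c => by
    congr 1
    rw [decide_eq_decide]
    omega)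

theorem PZ.le {f g : γ → ℤ} (hf : PF f) (hg : PF g) : PF (fun c => decide (f c ≤ g c)) :=
  (PZ.lt hg hf).not.cast (fun c => by
    congr 1
    rw [← decide_not, decide_eq_decide, not_lt])

theorem PZ.eq {f g : γ → ℤ} (hf : PF f) (hg : PF g) : PF (fun c => decide (f c = g c)) :=
  PF.eq hf hg

theorem PZ.toNat {f : γ → ℤ} (hf : PF f) : PN (fun c => (f c).toNat) :=
  (PN.ite (PZ.isNeg hf) (PN.const 0) (PZ.abs hf)).congr (fun c => by
    by_cases h : f c < 0
    · simp only [h, decide_true, if_true]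
      omega
    · simp only [h, decide_false, Bool.false_eq_true, if_false]
      omega)

/-- division, rounded down for positive divisors -/
theorem PZ.div {f g : γ → ℤ} (hf : PF f) (hg : PF g) : PF (fun c => f c / g c) := by
  have h1 : PF (fun c => if decide (f c < 0) then
      -((((f c).natAbs + (g c).natAbs - 1) / (g c).natAbs : ℕ) : ℤ) else
      (((f c).natAbs / (g c).natAbs : ℕ) : ℤ)) :=
    PF.ite (PZ.isNeg hf) (PZ.neg (PZ.ofNat ((((PZ.abs hf).add (PZ.abs hg)).sub
      (PN.const 1)).div (PZ.abs hg)))) (PZ.ofNat ((PZ.abs hf).div (PZ.abs hg)))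
  refine PZ.congr (PF.ite (PZ.isNeg hg) (PZ.neg h1) h1) (fun c => ?_)
  generalize f c = x
  generalize g c = y
  have key : ∀ b : ℕ, x / (b : ℤ) = if decide (x < 0) then
      -(((x.natAbs + b - 1) / b : ℕ) : ℤ) else ((x.natAbs / b : ℕ) : ℤ) := by
    intro b
    rcases Nat.eq_zero_or_pos b with hb | hb
    · subst hb
      simp
    · by_cases hx : x < 0
      · simp only [hx, decide_true, if_true]
        obtain ⟨a, rfl⟩ : ∃ a : ℕ, x = -(a : ℤ) := ⟨x.natAbs, by omega⟩
        rw [Int.natAbs_neg, Int.natAbs_natCast]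
        have ha : 0 < a := by omega
        have h3 := Nat.div_add_mod (a + b - 1) b
        have h4 := Nat.mod_lt (a + b - 1) hb
        generalize (a + b - 1) / b = q at h3 ⊢
        generalize (a + b - 1) % b = w at h3 h4
        have h5 : ((b : ℤ) * q + w) = a + b - 1 := by
          have h6 : b * q + w + 1 = a + b := by omega
          have h7 : ((b * q + w + 1 : ℕ) : ℤ) = ((a + b : ℕ) : ℤ) := by rw [h6]
          push_cast at h7
          linarith
        exact ((Int.ediv_emod_unique (a := -(a : ℤ)) (b := (b : ℤ)) (r := (b : ℤ) - 1 - w)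
          (q := -(q : ℤ)) (by omega)).2 ⟨by linarith, by omega, by omega⟩).1
      · simp only [hx, decide_false]
        obtain ⟨a, rfl⟩ : ∃ a : ℕ, x = (a : ℤ) := ⟨x.natAbs, by omega⟩
        simp
  by_cases hy : y < 0
  · simp only [hy, decide_true, if_true]
    obtain ⟨b, rfl⟩ : ∃ b : ℕ, y = -(b : ℤ) := ⟨y.natAbs, by omega⟩
    rw [Int.ediv_neg, key, Int.natAbs_neg, Int.natAbs_natCast]
  · simp only [hy, decide_false]
    obtain ⟨b, rfl⟩ : ∃ b : ℕ, y = (b : ℤ) := ⟨y.natAbs, by omega⟩
    rw [key, Int.natAbs_natCast]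
    simp

theorem PZ.bound {f : γ → ℤ} (hf : PF f) :
    ∃ P : Polynomial ℕ, ∀ c, (f c).natAbs < 2 ^ P.eval (sz c) := by
  obtain ⟨P, hP⟩ := PF.bound hf
  exact ⟨P, fun c => (natAbs_lt_sz _).trans_le (Nat.pow_le_pow_right (by norm_num) (hP c))⟩

/-- Folding with a state that is an integer in binary. -/
theorem PZ.foldl {f : γ → ℤ → α → ℤ} {b : γ → ℤ} {l : γ → List α}
    (hf : PF (fun x : (γ × ℤ) × α => f x.1.1 x.1.2 x.2)) (hb : PF b) (hl : PF l)
    (P : Polynomial ℕ)
    (hP : ∀ c l', l' <+: l c → (l'.foldl (f c) (b c)).natAbs < 2 ^ P.eval (sz c)) :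
    PF (fun c => (l c).foldl (f c) (b c)) := by
  refine PF.foldl' hf hb hl (Polynomial.C 4 * P + 5) ?_
  intro c l' hl'
  have h2 := sz_int_le (hP c l' hl')
  simp only [Polynomial.eval_add, Polynomial.eval_mul, Polynomial.eval_C,
    Polynomial.eval_ofNat]
  exact h2

end

end Pool.Agent.PolyTime
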