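import Pool.Agent.W_d799b0_h42.BinI

/-! Polynomial time arithmetic, third part: sums, vectors and matrices of integers in binary. -/

set_option autoImplicit false
set_option linter.unusedSectionVars false

namespace Pool.Agent.PolyTime

open Turing Function
open Pool.Agent.W_d799b0_h82 (Bn val)

section

variable {γ α β δ : Type} [ToD γ] [ToD α] [ToD β] [ToD δ]

theorem zipWith_eq_map_zip' (h : α → β → δ) (l : List α) (l' : List β) :
    List.zipWith h l l' = (l.zip l').map (fun x => h x.1 x.2) := by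
  induction l generalizing l' with
  | nil => rfl
  | cons a l ih =>
    cases l' with
    | nil => rfl
    | cons b l' => rw [List.zipWith_cons_cons, List.zip_cons_cons, List.map_cons, ih]

theorem PF.zipWith [Inhabited β] {h : γ → α → β → δ} {f : γ → List α} {g : γ → List β}
    (hh : PF (fun x : γ × (α × β) => h x.1 x.2.1 x.2.2)) (hf : PF f) (hg : PF g) :
    PF (fun c => List.zipWith (h c) (f c) (g c)) :=
  (PF.map (g := fun c (x : α × β) => h c x.1 x.2) hh (hf.zip hg)).cast (fun c => by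
    rw [zipWith_eq_map_zip'])

/-! ### sums -/

theorem foldl_add_eq (l : List ℤ) (s : ℤ) : l.foldl (fun s x => s + x) s = s + l.sum := by
  induction l generalizing s with
  | nil => simp
  | cons a l ih => rw [List.foldl_cons, ih, List.sum_cons]; ring

theorem natAbs_sum_le (l : List ℤ) (k : ℕ) (h : ∀ x ∈ l, x.natAbs < 2 ^ k) :
    l.sum.natAbs ≤ l.length * 2 ^ k := by
  induction l with
  | nil => simp
  | cons a l ih =>
    rw [List.sum_cons, List.length_cons]
    have h1 := h a (List.mem_cons_self ..)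
    have h2 := ih (fun x hx => h x (List.mem_cons_of_mem _ hx))
    have h3 := Int.natAbs_add_le a l.sum
    have h4 : (l.length + 1) * 2 ^ k = l.length * 2 ^ k + 2 ^ k := by ring
    omega

theorem sz_mem_le {l : List α} {a : α} (h : a ∈ l) : sz a ≤ sz l := by
  induction l with
  | nil => exact absurd h List.not_mem_nil
  | cons b l ih =>
    rw [sz_cons]
    rcases List.mem_cons.1 h with rfl | h
    · omega
    · have := ih h
      omega

theorem natAbs_sum_lt (l : List ℤ) : l.sum.natAbs < 2 ^ (l.length + sz l) := by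
  have h1 := natAbs_sum_le l (sz l) (fun x hx => (natAbs_lt_sz x).trans_le
    (Nat.pow_le_pow_right (by norm_num) (sz_mem_le hx)))
  rw [pow_add]
  exact h1.trans_lt (Nat.mul_lt_mul_of_pos_right Nat.lt_two_pow_self (by positivity))

/-- the sum of a list of integers -/
theorem PZ.sum {l : γ → List ℤ} (hl : PF l) : PF (fun c => (l c).sum) := by
  obtain ⟨P, hP⟩ := hl.bound
  have h : PF (fun c => (l c).foldl (fun s x => s + x) 0) := by
    refine PZ.foldl (f := fun _ s x => s + x) (PZ.add PF.id'.fst.snd PF.id'.snd) (PF.const 0) hl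
      (Polynomial.C 2 * P) ?_
    intro c l' hl'
    rw [show (fun (s x : ℤ) => s + x) = fun s x => s + x from rfl, foldl_add_eq, zero_add]
    refine (natAbs_sum_lt l').trans_le (Nat.pow_le_pow_right (by norm_num) ?_)
    have h1 := sz_prefix hl'
    have h2 := length_le_sz l'
    have h3 := hP c
    simp only [Polynomial.eval_mul, Polynomial.eval_C]
    omega
  exact PZ.congr h (fun c => by rw [foldl_add_eq, zero_add])

/-- the sum of the values of a function -/
theorem PZ.sumMap {f : γ → α → ℤ} {l : γ → List α} (hf : PF (fun x : γ × α => f x.1 x.2))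
    (hl : PF l) : PF (fun c => ((l c).map (f c)).sum) := PZ.sum (PF.map hf hl)

/-- the sum over `i < n` -/
theorem PZ.sumRange {f : γ → ℕ → ℤ} {n : γ → ℕ} (hf : PF (fun x : γ × ℕ => f x.1 x.2))
    (hn : PF n) : PF (fun c => ∑ i ∈ Finset.range (n c), f c i) :=
  PZ.congr (PZ.sumMap hf hn.range) (fun c => by
    induction n c with
    | zero => simp
    | succ k ih => rw [Finset.sum_range_succ, ih, List.range_succ]; simp)

/-! ### vectors -/

/-- the dot product -/
def dotZ (u v : List ℤ) : ℤ := (List.zipWith (fun x y => x * y) u v).sum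

/-- the product of a matrix (list of rows) and a vector -/
def mulVecZ (M : List (List ℤ)) (v : List ℤ) : List ℤ := M.map (fun r => dotZ r v)

/-- the quadratic form of a matrix -/
def quadZ (M : List (List ℤ)) (v : List ℤ) : ℤ := dotZ v (mulVecZ M v)

/-- the sum of vectors of length `m` -/
def vsumZ (m : ℕ) (L : List (List ℤ)) : List ℤ :=
  (List.range m).map (fun i => (L.map (fun v => v.getD i 0)).sum)

/-- `(a N + b y y^T) / d`, entry by entry -/
def updZ (a b d : ℤ) (N : List (List ℤ)) (y : List ℤ) : List (List ℤ) :=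
  List.zipWith (fun r yi => List.zipWith (fun n yj => (a * n + b * (yi * yj)) / d) r y) N y

theorem PF.dotZ {f g : γ → List ℤ} (hf : PF f) (hg : PF g) : PF (fun c => dotZ (f c) (g c)) :=
  PZ.sum (PF.zipWith (h := fun _ x y => x * y) (PZ.mul PF.id'.snd.fst PF.id'.snd.snd) hf hg)

theorem PF.mulVecZ {M : γ → List (List ℤ)} {v : γ → List ℤ} (hM : PF M) (hv : PF v) :
    PF (fun c => mulVecZ (M c) (v c)) :=
  PF.map (g := fun c r => PolyTime.dotZ r (v c)) (PF.dotZ PF.id'.snd (hv.comp PF.id'.fst)) hM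

theorem PF.quadZ {M : γ → List (List ℤ)} {v : γ → List ℤ} (hM : PF M) (hv : PF v) :
    PF (fun c => quadZ (M c) (v c)) := PF.dotZ hv (PF.mulVecZ hM hv)

theorem PF.smulZ {a : γ → ℤ} {v : γ → List ℤ} (ha : PF a) (hv : PF v) :
    PF (fun c => (v c).map (fun x => a c * x)) :=
  PF.map (g := fun c x => a c * x) (PZ.mul (ha.comp PF.id'.fst) PF.id'.snd) hv

theorem PF.vaddZ {u v : γ → List ℤ} (hu : PF u) (hv : PF v) :
    PF (fun c => List.zipWith (fun x y => x + y) (u c) (v c)) :=
  PF.zipWith (h := fun _ x y => x + y) (PZ.add PF.id'.snd.fst PF.id'.snd.snd) hu hv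

theorem PF.vsubZ {u v : γ → List ℤ} (hu : PF u) (hv : PF v) :
    PF (fun c => List.zipWith (fun x y => x - y) (u c) (v c)) :=
  PF.zipWith (h := fun _ x y => x - y) (PZ.sub PF.id'.snd.fst PF.id'.snd.snd) hu hv

theorem PF.vsumZ {m : γ → ℕ} {L : γ → List (List ℤ)} (hm : PF m) (hL : PF L) :
    PF (fun c => vsumZ (m c) (L c)) := by
  refine PF.map (g := fun c i => ((L c).map (fun v => v.getD i 0)).sum) ?_ hm.range
  exact PZ.sumMap (f := fun x : γ × ℕ => fun v : List ℤ => v.getD x.2 0)
    (PF.getD PF.id'.snd PF.id'.fst.snd (PF.const 0)) (hL.comp PF.id'.fst)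

theorem PF.updZ {a b d : γ → ℤ} {N : γ → List (List ℤ)} {y : γ → List ℤ} (ha : PF a) (hb : PF b)
    (hd : PF d) (hN : PF N) (hy : PF y) :
    PF (fun c => updZ (a c) (b c) (d c) (N c) (y c)) := by
  refine PF.zipWith (h := fun c (r : List ℤ) (yi : ℤ) =>
    List.zipWith (fun n yj => (a c * n + b c * (yi * yj)) / d c) r (y c)) ?_ hN hy
  refine PF.zipWith (h := fun (x : γ × (List ℤ × ℤ)) (n yj : ℤ) =>
    (a x.1 * n + b x.1 * (x.2.2 * yj)) / d x.1) ?_ PF.id'.snd.fst (hy.comp PF.id'.fst)
  exact PZ.div (PZ.add (PZ.mul (ha.comp PF.id'.fst.fst) PF.id'.snd.fst)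
    (PZ.mul (hb.comp PF.id'.fst.fst) (PZ.mul PF.id'.fst.snd.snd PF.id'.snd.snd)))
    (hd.comp PF.id'.fst.fst)

/-! ### sizes -/

theorem sz_listZ_le {v : List ℤ} {k : ℕ} (h : ∀ x ∈ v, x.natAbs < 2 ^ k) :
    sz v ≤ v.length * (4 * k + 6) + 1 := by
  have h1 := sz_le_length v (4 * k + 5) (fun a ha => sz_int_le (h a ha))
  refine h1.trans (le_of_eq ?_)
  ring

theorem sz_matZ_le {M : List (List ℤ)} {k m : ℕ} (hm : ∀ r ∈ M, r.length ≤ m)
    (h : ∀ r ∈ M, ∀ x ∈ r, x.natAbs < 2 ^ k) :
    sz M ≤ M.length * (m * (4 * k + 6) + 2) + 1 := by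
  have h1 := sz_le_length M (m * (4 * k + 6) + 1) (fun r hr => (sz_listZ_le (h r hr)).trans
    (Nat.add_le_add_right (Nat.mul_le_mul_right _ (hm r hr)) _))
  refine h1.trans (le_of_eq ?_)
  ring

/-! ### the case of vectors `Fin m → ℤ` -/

theorem dotZ_ofFn {m : ℕ} (u v : Fin m → ℤ) :
    dotZ (List.ofFn u) (List.ofFn v) = ∑ i, u i * v i := by
  induction m with
  | zero => simp [dotZ]
  | succ m ih =>
    rw [List.ofFn_succ, List.ofFn_succ, Fin.sum_univ_succ, ← ih]
    simp [dotZ]

theorem mulVecZ_ofFn {m : ℕ} (M : Fin m → Fin m → ℤ) (v : Fin m → ℤ) :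
    mulVecZ (List.ofFn fun i => List.ofFn (M i)) (List.ofFn v) =
      List.ofFn fun i => ∑ j, M i j * v j := by
  rw [mulVecZ, List.map_ofFn]
  congr 1
  funext i
  exact dotZ_ofFn _ _

theorem quadZ_ofFn {m : ℕ} (M : Fin m → Fin m → ℤ) (v : Fin m → ℤ) :
    quadZ (List.ofFn fun i => List.ofFn (M i)) (List.ofFn v) =
      ∑ i, v i * ∑ j, M i j * v j := by
  rw [quadZ, mulVecZ_ofFn, dotZ_ofFn]

theorem zipWith_ofFn' {A B C : Type} {m : ℕ} (h : A → B → C) (u : Fin m → A) (v : Fin m → B) :
    List.zipWith h (List.ofFn u) (List.ofFn v) = List.ofFn fun i => h (u i) (v i) := by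
  induction m with
  | zero => simp
  | succ m ih =>
    rw [List.ofFn_succ, List.ofFn_succ, List.ofFn_succ, List.zipWith_cons_cons, ih]

theorem updZ_ofFn {m : ℕ} (a b d : ℤ) (N : Fin m → Fin m → ℤ) (y : Fin m → ℤ) :
    updZ a b d (List.ofFn fun i => List.ofFn (N i)) (List.ofFn y) =
      List.ofFn fun i => List.ofFn fun j => (a * N i j + b * (y i * y j)) / d := by
  rw [updZ, zipWith_ofFn']
  congr 1
  funext i
  rw [zipWith_ofFn']

end

end Pool.Agent.PolyTime
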