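import Pool.Agent.W_d799b0_h42.Ver

/-! The universal language is in NP: there is a language in NP which contains the code of an
instance iff the instance is true. -/

set_option autoImplicit false
set_option linter.unusedSectionVars false

namespace Pool.Agent.PolyTime

open Turing Function Computability
open Pool.Agent.W_d799b0_h82 (Bn Pt Seed Test Hd Inst Theta InNP)

/-- from a pair of words in the standard encoding of pairs to a typed pair -/
theorem Poly.ofPair : Poly (encodingProd (encodingList Bool) (encodingList Bool)).encode
    (en (α := List Bool × List Bool)) (fun p => p) := by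
  let δ : Bool ⊕ Bool → D := fun s =>
    toD ((s.isRight, (s.elim id id : Bool)) : Bool × Bool)
  have h1 := Poly.toTree δ
  have h2 : PF (fun l : List (Bool × Bool) =>
      ((l.filter (fun a => !a.1)).map (fun a => a.2), (l.filter (fun a => a.1)).map
        (fun a => a.2))) :=
    PF.pair (PF.map (g := fun _ (a : Bool × Bool) => a.2) PF.id'.snd.snd
      (PF.filter (g := fun _ (a : Bool × Bool) => !a.1) PF.id'.snd.fst.not PF.id'))
      (PF.map (g := fun _ (a : Bool × Bool) => a.2) PF.id'.snd.snd
      (PF.filter (g := fun _ (a : Bool × Bool) => a.1) PF.id'.snd.fst PF.id'))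
  have h3 : Poly (encodingProd (encodingList Bool) (encodingList Bool)).encode
      (en (α := List (Bool × Bool)))
      (fun p : List Bool × List Bool => p.1.map (fun b => (false, b)) ++
        p.2.map (fun b => (true, b))) := by
    refine h1.restrict (ea' := (encodingProd (encodingList Bool) (encodingList Bool)).encode)
      (fun p => (encodingProd (encodingList Bool) (encodingList Bool)).encode p)
      (fun _ => rfl) ?_
    intro p
    change _ = D.enc (D.ofList ((p.1.map (fun b => (false, b)) ++
      p.2.map (fun b => (true, b))).map toD))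
    congr 2
    simp only [encodingProd, encodingList, List.map_append, List.map_map, id_eq]
    rfl
  have h4 := Poly.comp h3 h2
  refine h4.restrict (f' := fun p => p) id (fun _ => rfl) ?_
  intro p
  obtain ⟨u, v⟩ := p
  have e1 : ∀ u : List Bool, ((u.map (fun b => (false, b))).filter (fun a => !a.1)).map
      (fun a : Bool × Bool => a.2) = u := by
    intro u
    induction u with
    | nil => rfl
    | cons a u ih => simp only [List.map_cons, List.filter_cons, Bool.not_false, if_true, ih]
  have e2 : ∀ u : List Bool, ((u.map (fun b => (true, b))).filter (fun a => !a.1)).map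
      (fun a : Bool × Bool => a.2) = [] := by
    intro u
    induction u with
    | nil => rfl
    | cons a u ih => simpa using ih
  have e3 : ∀ u : List Bool, ((u.map (fun b => (false, b))).filter (fun a => a.1)).map
      (fun a : Bool × Bool => a.2) = [] := by
    intro u
    induction u with
    | nil => rfl
    | cons a u ih => simpa using ih
  have e4 : ∀ u : List Bool, ((u.map (fun b => (true, b))).filter (fun a => a.1)).map
      (fun a : Bool × Bool => a.2) = u := by
    intro u
    induction u with
    | nil => rfl
    | cons a u ih => simp only [List.map_cons, List.filter_cons, if_true, ih]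
  simp only [id_eq, List.filter_append, List.map_append, e1, e2, e3, e4, List.append_nil,
    List.nil_append]

/-- **NP from a verifier on codes**: if `ver` is computable in polynomial time, then there is a
language in NP that contains the code of `I` iff some `y` of length at most `p` (size of `I`)
satisfies `ver`. -/
theorem exists_inNP {α : Type} [ToD α] [ToDInj α] {ver : α × List Bool → Bool} (hver : PF ver)
    (p : Polynomial ℕ) :
    ∃ A : Set (List Bool), InNP A ∧
      ∀ I : α, en I ∈ A ↔ ∃ y : List Bool, y.length ≤ p.eval (sz I) ∧ ver (I, y) = true := by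
  classical
  let P : List Bool × List Bool → Prop := fun q => ∃ I : α, en I = q.1
  let dec : {q // P q} → α := fun q => q.2.choose
  have hdec : ∀ q : {q // P q}, en (dec q) = q.1.1 := fun q => q.2.choose_spec
  have h1 : PF (fun q : {q // P q} => q.1.1) :=
    PF.fst (PF.ident (f := fun q : {q // P q} => q.1) (fun _ => rfl))
  have h2 : Poly (en (α := List Bool)) (id : List Bool → List Bool) id :=
    Poly.ofTree.restrict id (fun _ => rfl) (fun _ => rfl)
  have h3 : Poly (en (α := {q // P q})) (id : List Bool → List Bool) (fun q => id q.1.1) :=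
    Poly.comp h1 h2
  have h4 : PF dec := h3.restrict (f' := dec) id (fun _ => rfl) (fun q => (hdec q).symm)
  have h5 : PF (fun q : {q // P q} => q.1.2) :=
    PF.snd (PF.ident (f := fun q : {q // P q} => q.1) (fun _ => rfl))
  have h6 : PB (fun q : {q // P q} => ver (dec q, q.1.2)) :=
    (PF.comp (g := ver) hver (h4.pair h5)).toPB
  have h7 : Poly (fun q : {q // P q} => en q.1) (id : List Bool → List Bool)
      (fun q => encodeBool (ver (dec q, q.1.2))) :=
    h6.restrict (f' := fun q : {q // P q} => encodeBool (ver (dec q, q.1.2))) id (fun _ => rfl)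
      (fun _ => rfl)
  obtain ⟨g, hg1, hg2⟩ := Poly.clock h7
  have h8 : Poly (id : List Bool → List Bool) en (fun w : List Bool => w) :=
    (Poly.toTree D.ofBool).restrict id (fun _ => rfl) (fun _ => rfl)
  have h9 : PF g := Poly.comp (f := g) (g := fun w : List Bool => w) hg1 h8
  have h10 : PB (fun q => decide (g q = [true])) :=
    (h9.eqListBool (PF.const [true])).toPB
  have h11 : Poly (encodingProd (encodingList Bool) (encodingList Bool)).encode encodeBool
      (fun q => decide (g q = [true])) := Poly.comp Poly.ofPair h10
  refine ⟨{w | ∃ y : List Bool, y.length ≤ p.eval w.length ∧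
    decide (g (w, y) = [true]) = true}, ⟨p, fun q => decide (g q = [true]), ?_, ?_⟩, ?_⟩
  · exact h11
  · intro x
    rfl
  · intro I
    have key : ∀ y, decide (g (en I, y) = [true]) = ver (I, y) := by
      intro y
      rw [hg2 (en I, y) ⟨I, rfl⟩]
      have h12 : dec ⟨(en I, y), ⟨I, rfl⟩⟩ = I := en_inj.1 (hdec _)
      simp only [h12]
      cases ver (I, y) <;> rfl
    constructor
    · rintro ⟨y, hy1, hy2⟩
      exact ⟨y, hy1, by rw [← key]; exact hy2⟩
    · rintro ⟨y, hy1, hy2⟩
      exact ⟨y, hy1, by rw [key]; exact hy2⟩

/-- **The universal language is in NP.** -/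
theorem exists_lang {V : List Bool → List Bool → Bool}
    (hV : PF (fun x : List Bool × List Bool => V x.1 x.2)) :
    ∃ A : Set (List Bool), InNP A ∧ ∀ I : Inst, en I ∈ A ↔ Theta V I := by
  obtain ⟨A, hA, h⟩ := exists_inNP (α := Inst)
    (ver := fun x : Inst × List Bool => W_d799b0_h82.verT V x.1 x.2)
    (PF.verT hV PF.id'.fst PF.id'.snd) (Polynomial.X + 2 * Polynomial.X ^ 2)
  refine ⟨A, hA, fun I => (h I).trans (W_d799b0_h82.theta_iff_verT V I _ ?_).symm⟩
  have h1 := sum_length_le_sz I.2.2
  have h2 : sz I = sz I.1.1 + ((2 * I.1.2.1 + 1) + ((2 * I.1.2.2.1 + 1) + sz I.1.2.2.2 + 1) + 1)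
      + 1 + (sz I.2.1 + sz I.2.2 + 1) + 1 := by
    obtain ⟨⟨x, e, n, r⟩, T, ph⟩ := I
    simp only [sz_pair, sz_nat]
  have h3 : I.1.2.1 ≤ sz I := by omega
  have h4 : (I.2.2.map List.length).sum ≤ sz I := by omega
  have h5 : I.1.2.2.1 ≤ sz I := by omega
  have h6 := Nat.mul_le_mul h3 h4
  simp only [Polynomial.eval_add, Polynomial.eval_mul, Polynomial.eval_X, Polynomial.eval_pow,
    Polynomial.eval_ofNat]
  nlinarith [h6, h5]

end Pool.Agent.PolyTime
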