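import Pool.Agent.W_d799b0_h42.AlgP1

/-! The verifier of the universal language: a certificate is the concatenation of the strings of a
chain. -/

set_option autoImplicit false
set_option linter.unusedSectionVars false

namespace Pool.Agent.W_d799b0_h82

/-- One step of the verification: state `(ok, current string, rest of the certificate)`. -/
def verStep (e r : ℕ) (s : Bool × (List Bool × List Bool)) (σ : List Seed) :
    Bool × (List Bool × List Bool) :=
  (s.1 && link e r σ s.2.1 (s.2.2.take (2 * e * σ.length)),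
    (s.2.2.take (2 * e * σ.length), s.2.2.drop (2 * e * σ.length)))

/-- The initial state of the verification. -/
def verInit (V : List Bool → List Bool → Bool) (H : Hd) (T : List Test) (y : List Bool) :
    Bool × (List Bool × List Bool) :=
  (decide ((y.take H.2.2.1).length = H.2.2.1) && (V H.1 (y.take H.2.2.1) &&
    T.all fun τ => testOK H.2.2.2.n τ (y.take H.2.2.1)), (y.take H.2.2.1, y.drop H.2.2.1))

/-- The verifier of the universal language. -/
def verT (V : List Bool → List Bool → Bool) (I : Inst) (y : List Bool) : Bool :=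
  (I.2.2.reverse.foldl (verStep I.1.2.1 I.1.2.2.2.n) (verInit V I.1 I.2.1 y)).1

theorem verT_sound (V : List Bool → List Bool → Bool) (H : Hd) (T : List Test) (y : List Bool)
    (ph : List (List Seed))
    (h : (ph.foldr (fun σ s => verStep H.2.1 H.2.2.2.n s σ) (verInit V H T y)).1 = true) :
    Ch V H T ph (ph.foldr (fun σ s => verStep H.2.1 H.2.2.2.n s σ) (verInit V H T y)).2.1 := by
  induction ph with
  | nil =>
    simp only [List.foldr_nil, verInit, Bool.and_eq_true, decide_eq_true_eq,
      List.all_eq_true] at h ⊢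
    exact ⟨h.1, h.2.1, h.2.2⟩
  | cons σ ph ih =>
    rw [List.foldr_cons] at h ⊢
    generalize ph.foldr (fun σ s => verStep H.2.1 H.2.2.2.n s σ) (verInit V H T y) = s at h ih ⊢
    simp only [verStep, Bool.and_eq_true] at h ⊢
    exact ⟨s.2.1, ih h.1, h.2⟩

theorem verT_complete (V : List Bool → List Bool → Bool) (H : Hd) (T : List Test)
    (ph : List (List Seed)) (B : List Bool) (h : Ch V H T ph B) :
    ∃ y0 : List Bool, y0.length = H.2.2.1 + 2 * H.2.1 * (ph.map List.length).sum ∧
      ∀ z, ph.foldr (fun σ s => verStep H.2.1 H.2.2.2.n s σ) (verInit V H T (y0 ++ z)) =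
        (true, (B, z)) := by
  induction ph generalizing B with
  | nil =>
    obtain ⟨h1, h2, h3⟩ := h
    refine ⟨B, by simp [h1], fun z => ?_⟩
    have h4 : (B ++ z).take H.2.2.1 = B := by rw [← h1]; simp
    have h5 : (B ++ z).drop H.2.2.1 = z := by rw [← h1]; simp
    rw [List.foldr_nil, verInit, h4, h5, h2, decide_eq_true h1]
    rw [List.all_eq_true.2 h3]
    rfl
  | cons σ ph ih =>
    obtain ⟨A, hA, hl⟩ := h
    obtain ⟨y0, h1, h2⟩ := ih A hA
    have hB : B.length = 2 * H.2.1 * σ.length := by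
      rw [link, Bool.and_eq_true, decide_eq_true_eq] at hl
      exact hl.1
    refine ⟨y0 ++ B, ?_, fun z => ?_⟩
    · rw [List.length_append, h1, hB, List.map_cons, List.sum_cons]
      ring
    · rw [List.foldr_cons, List.append_assoc, h2, verStep]
      have h4 : (B ++ z).take (2 * H.2.1 * σ.length) = B := by rw [← hB]; simp
      have h5 : (B ++ z).drop (2 * H.2.1 * σ.length) = z := by rw [← hB]; simp
      simp only [h4, h5, hl, Bool.and_self]

theorem theta_iff_verT (V : List Bool → List Bool → Bool) (I : Inst) (N : ℕ)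
    (hN : I.1.2.2.1 + 2 * I.1.2.1 * (I.2.2.map List.length).sum ≤ N) :
    Theta V I ↔ ∃ y : List Bool, y.length ≤ N ∧ verT V I y = true := by
  constructor
  · rintro ⟨B, hB⟩
    obtain ⟨y0, h1, h2⟩ := verT_complete V I.1 I.2.1 I.2.2 B hB
    refine ⟨y0, h1.le.trans hN, ?_⟩
    rw [verT, List.foldl_reverse]
    have h3 := h2 []
    rw [List.append_nil] at h3
    change (I.2.2.foldr (fun σ s => verStep I.1.2.1 I.1.2.2.2.n s σ)
      (verInit V I.1 I.2.1 y0)).1 = true
    rw [h3]
  · rintro ⟨y, -, hy⟩
    rw [verT, List.foldl_reverse] at hy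
    exact ⟨_, verT_sound V I.1 I.2.1 y I.2.2 hy⟩

end Pool.Agent.W_d799b0_h82

namespace Pool.Agent.PolyTime

open Turing Function
open Pool.Agent.W_d799b0_h82 (Bn Pt Seed Test Hd Inst)

theorem sum_length_le_sz {α : Type} [ToD α] (l : List (List α)) :
    (l.map List.length).sum ≤ sz l := by
  induction l with
  | nil => simp
  | cons a l ih =>
    rw [List.map_cons, List.sum_cons, sz_cons]
    have := length_le_sz a
    omega

section

variable {γ : Type} [ToD γ]

theorem PF.verStep {e r : γ → ℕ} {s : γ → Bool × (List Bool × List Bool)} {σ : γ → List Seed}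
    (he : PF e) (hr : PN r) (hs : PF s) (hσ : PF σ) :
    PF (fun c => W_d799b0_h82.verStep (e c) (r c) (s c) (σ c)) := by
  have hn : PF (fun c => 2 * e c * (σ c).length) := ((PF.const 2).mul he).mul hσ.length
  have ht := PF.take hn hs.snd.snd
  exact (hs.fst.and (PF.link he hr hσ hs.snd.fst ht)).pair (ht.pair (PF.drop hn hs.snd.snd))

theorem PF.verInit {V : List Bool → List Bool → Bool}
    (hV : PF (fun x : List Bool × List Bool => V x.1 x.2)) {H : γ → Hd} {T : γ → List Test}
    {y : γ → List Bool} (hH : PF H) (hT : PF T) (hy : PF y) :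
    PF (fun c => W_d799b0_h82.verInit V (H c) (T c) (y c)) := by
  have hn : PF (fun c => (H c).2.2.1) := hH.snd.snd.fst
  have ht := PF.take hn hy
  refine PF.pair (PF.and (ht.length.natEq hn) (PF.and ?_ ?_)) (ht.pair (PF.drop hn hy))
  · exact PF.comp (g := fun x : List Bool × List Bool => V x.1 x.2) hV (hH.fst.pair ht)
  · exact PF.all (g := fun c τ => W_d799b0_h82.testOK (H c).2.2.2.n τ ((y c).take (H c).2.2.1))
      (PF.testOK (PN.ofBn (hH.comp PF.id'.fst).snd.snd.snd) PF.id'.snd (ht.comp PF.id'.fst)) hT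

theorem verFold_size (e r : ℕ) (l : List (List Seed)) (s : Bool × (List Bool × List Bool))
    (A : ℕ) (h1 : sz s.2.1 ≤ A) (h2 : sz s.2.2 ≤ A) :
    sz (l.foldl (W_d799b0_h82.verStep e r) s).2.1 ≤ A ∧
      sz (l.foldl (W_d799b0_h82.verStep e r) s).2.2 ≤ A := by
  induction l generalizing s with
  | nil => exact ⟨h1, h2⟩
  | cons σ l ih =>
    rw [List.foldl_cons]
    refine ih _ ?_ ?_
    · exact (sz_take _ _).trans h2
    · exact (sz_drop _ _).trans h2

theorem PF.verT {V : List Bool → List Bool → Bool}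
    (hV : PF (fun x : List Bool × List Bool => V x.1 x.2)) {I : γ → Inst} {y : γ → List Bool}
    (hI : PF I) (hy : PF y) : PF (fun c => W_d799b0_h82.verT V (I c) (y c)) := by
  obtain ⟨P, hP⟩ := hy.bound
  have h : PF (fun c => (I c).2.2.reverse.foldl
      (W_d799b0_h82.verStep (I c).1.2.1 (I c).1.2.2.2.n)
      (W_d799b0_h82.verInit V (I c).1 (I c).2.1 (y c))) := by
    refine PF.foldl' (f := fun c s σ => W_d799b0_h82.verStep (I c).1.2.1 (I c).1.2.2.2.n s σ)
      (PF.verStep (hI.comp PF.id'.fst.fst).fst.snd.fst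
        (PN.ofBn (hI.comp PF.id'.fst.fst).fst.snd.snd.snd) PF.id'.fst.snd PF.id'.snd)
      (PF.verInit hV hI.fst hI.snd.fst hy) hI.snd.snd.reverse (P + P + 5) ?_
    intro c l' _
    have h1 := verFold_size (I c).1.2.1 (I c).1.2.2.2.n l'
      (W_d799b0_h82.verInit V (I c).1 (I c).2.1 (y c)) (sz (y c)) (sz_take _ _) (sz_drop _ _)
    have h2 := hP c
    rw [show (fun s σ => W_d799b0_h82.verStep (I c).1.2.1 (I c).1.2.2.2.n s σ) =
      W_d799b0_h82.verStep (I c).1.2.1 (I c).1.2.2.2.n from rfl]
    generalize l'.foldl (W_d799b0_h82.verStep (I c).1.2.1 (I c).1.2.2.2.n)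
      (W_d799b0_h82.verInit V (I c).1 (I c).2.1 (y c)) = t at h1 ⊢
    obtain ⟨b, u, v⟩ := t
    have h3 := sz_bool b
    rw [sz_pair, sz_pair]
    simp only [Polynomial.eval_add, Polynomial.eval_ofNat]
    simp only at h1
    omega
  exact h.fst

end

end Pool.Agent.PolyTime
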